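import Pool.Agent.IG19.BasicA
import Pool.Agent.IG19.BasicB

/-!
# IG71-Batch: the choice of the edges of the second player

All edges at some vertices of a nearly complete graph, and the remaining edges spread evenly.
-/

namespace Pool.Agent.IG71

open Finset Pool.Agent.IG19

variable {n : ℕ} {E L X : Finset (Sym2 (Fin n))} {Y Z P : Finset (Fin n)}

/-- The elements of `E` inside `Z`. -/
def ins (Z : Finset (Fin n)) (E : Finset (Sym2 (Fin n))) : Finset (Sym2 (Fin n)) :=
  E.filter (fun e => ∀ v, v ∈ e → v ∈ Z)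

/-- The number of non-neighbours. -/
def nn (E : Finset (Sym2 (Fin n))) (Y : Finset (Fin n)) (z : Fin n) : ℕ :=
  ((Y.erase z).filter (fun w => s(z, w) ∉ E)).card

theorem mk_mem_ins {z w : Fin n} : s(z, w) ∈ ins Z E ↔ s(z, w) ∈ E ∧ z ∈ Z ∧ w ∈ Z := by
  unfold ins
  rw [mem_filter]
  constructor
  · rintro ⟨h1, h2⟩
    exact ⟨h1, h2 z (Sym2.mem_mk_left _ _), h2 w (Sym2.mem_mk_right _ _)⟩
  · rintro ⟨h1, h2, h3⟩
    refine ⟨h1, fun v hv => ?_⟩
    rcases Sym2.mem_iff.1 hv with rfl | rfl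
    · exact h2
    · exact h3

theorem nn_mono (h : Z ⊆ Y) (z : Fin n) : nn E Z z ≤ nn E Y z :=
  card_le_card (filter_subset_filter _ (erase_subset_erase z h))

/-- neighbours and non-neighbours -/
theorem nb_add_nn (hE : E ⊆ edges n) {z : Fin n} (hz : z ∈ Z) :
    (Z.filter (fun w => s(z, w) ∈ E)).card + nn E Z z + 1 = Z.card := by
  have h1 : Z.filter (fun w => s(z, w) ∈ E) = (Z.erase z).filter (fun w => s(z, w) ∈ E) := by
    ext w
    simp only [mem_filter, mem_erase]
    constructor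
    · rintro ⟨a, c⟩
      exact ⟨⟨fun h => mk_mem_edges.1 (hE c) h.symm, a⟩, c⟩
    · rintro ⟨⟨_, a⟩, c⟩
      exact ⟨a, c⟩
  rw [h1]
  unfold nn
  rw [card_filter_add_card_filter_not, card_erase_add_one hz]

theorem ld_insert_le (L : Finset (Sym2 (Fin n))) (e : Sym2 (Fin n)) (z : Fin n) :
    ld (insert e L) z ≤ ld L z + 1 := by
  unfold ld
  rw [filter_insert]
  split_ifs
  · exact card_insert_le _ _
  · omega

theorem ld_insert_of_not_mem {e : Sym2 (Fin n)} {z : Fin n} (h : z ∉ e) :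
    ld (insert e L) z = ld L z := by
  unfold ld
  rw [filter_insert, if_neg h]

/-- Spreading edges. -/
theorem leftover (hE : E ⊆ edges n) {D0 : ℕ} (hD : ∀ z ∈ Z, nn E Z z ≤ D0)
    (hZ : 2 * D0 + 10 ≤ Z.card) (r : ℕ) (hr : r ≤ Z.card) :
    ∃ L ⊆ ins Z E, L.card = r ∧ ∀ z, ld L z ≤ 4 := by
  induction r with
  | zero => exact ⟨∅, empty_subset _, card_empty, fun z => by simp [ld]⟩
  | succ r ih =>
    obtain ⟨L, hL, hLc, hL4⟩ := ih (by omega)
    have h1 : 4 * (Z.filter (fun z => ld L z = 4)).card ≤ 2 * r := by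
      have a1 : ∑ z ∈ Z.filter (fun z => ld L z = 4), ld L z =
          4 * (Z.filter (fun z => ld L z = 4)).card := by
        rw [sum_congr rfl (fun z hz => (mem_filter.1 hz).2), sum_const, smul_eq_mul, mul_comm]
      have a2 := sum_ld_le (X := L) (Z.filter (fun z => ld L z = 4))
      rw [a1, hLc] at a2
      exact a2
    have h2 := card_filter_add_card_filter_not (s := Z) (fun z => ld L z = 4)
    set C := Z.filter (fun z => ¬ ld L z = 4) with hC
    have hCc : D0 + 5 < C.card := by omega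
    obtain ⟨v, hv⟩ := card_pos.1 (show 0 < C.card by omega)
    have hvZ : v ∈ Z := (mem_filter.1 hv).1
    have hv3 : ld L v ≤ 3 := by
      have a1 := (mem_filter.1 hv).2
      have a2 := hL4 v
      omega
    obtain ⟨w, hw⟩ : ((C.erase v).filter (fun w => s(v, w) ∈ E ∧ s(v, w) ∉ L)).Nonempty := by
      rw [nonempty_iff_ne_empty]
      intro hemp
      have a1 : C.erase v ⊆ ((Z.erase v).filter (fun w => s(v, w) ∉ E)) ∪
          (Z.filter (fun w => s(v, w) ∈ L)) := by
        intro w hw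
        rw [mem_union, mem_filter, mem_filter]
        have hwC : w ∈ C := mem_of_mem_erase hw
        have hwZ : w ∈ Z := (mem_filter.1 hwC).1
        by_cases a2 : s(v, w) ∈ E
        · right
          refine ⟨hwZ, ?_⟩
          by_contra a3
          have : w ∈ ((C.erase v).filter (fun w => s(v, w) ∈ E ∧ s(v, w) ∉ L)) :=
            mem_filter.2 ⟨hw, a2, a3⟩
          rw [hemp] at this
          exact absurd this (notMem_empty _)
        · left
          exact ⟨mem_erase.2 ⟨(mem_erase.1 hw).1, hwZ⟩, a2⟩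
      have a2 := (card_le_card a1).trans (card_union_le _ _)
      have a3 := card_erase_add_one hv
      have a4 := hD v hvZ
      unfold nn at a4
      have a5 := nbr_card_le (B := L) Z v
      omega
    rw [mem_filter, mem_erase] at hw
    obtain ⟨⟨hwv, hwC⟩, hwE, hwL⟩ := hw
    have hwZ : w ∈ Z := (mem_filter.1 hwC).1
    have hw3 : ld L w ≤ 3 := by
      have a1 := (mem_filter.1 hwC).2
      have a2 := hL4 w
      omega
    refine ⟨insert s(v, w) L, ?_, ?_, ?_⟩
    · intro e he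
      rcases mem_insert.1 he with rfl | he
      · exact mk_mem_ins.2 ⟨hwE, hvZ, hwZ⟩
      · exact hL he
    · rw [card_insert_of_notMem hwL, hLc]
    · intro z
      by_cases hz : z ∈ s(v, w)
      · have a1 := ld_insert_le L s(v, w) z
        rcases Sym2.mem_iff.1 hz with rfl | rfl
        · omega
        · omega
      · rw [ld_insert_of_not_mem hz]
        exact hL4 z

/-- The number of the edges of `E` inside `Y` that meet `P`. -/
def icp (E : Finset (Sym2 (Fin n))) (Y P : Finset (Fin n)) : Finset (Sym2 (Fin n)) :=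
  (ins Y E).filter (fun e => ∃ v ∈ P, v ∈ e)

theorem icp_insert (hPY : P ⊆ Y) {v : Fin n} (hv : v ∈ Y \ P) :
    (icp E Y (insert v P)).card = (icp E Y P).card +
      ((Y \ P).filter (fun w => s(v, w) ∈ E)).card := by
  have hvY := (mem_sdiff.1 hv).1
  have hvP := (mem_sdiff.1 hv).2
  have h1 : icp E Y (insert v P) = icp E Y P ∪
      ((Y \ P).filter (fun w => s(v, w) ∈ E)).image (fun w => s(v, w)) := by
    ext e
    simp only [icp, mem_union, mem_filter, mem_image, mem_insert, exists_eq_or_imp]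
    constructor
    · rintro ⟨a1, a2⟩
      by_cases a3 : ∃ x ∈ P, x ∈ e
      · exact Or.inl ⟨a1, a3⟩
      · right
        have a4 : v ∈ e := a2.resolve_right a3
        obtain ⟨w, rfl⟩ := Sym2.mem_iff_exists.1 a4
        obtain ⟨b1, b2, b3⟩ := mk_mem_ins.1 a1
        refine ⟨w, ⟨mem_sdiff.2 ⟨b3, fun hw => a3 ⟨w, hw, Sym2.mem_mk_right _ _⟩⟩, b1⟩, rfl⟩
    · rintro (⟨a1, a2⟩ | ⟨w, ⟨a1, a2⟩, rfl⟩)
      · exact ⟨a1, Or.inr a2⟩
      · exact ⟨mk_mem_ins.2 ⟨a2, hvY, (mem_sdiff.1 a1).1⟩, Or.inl (Sym2.mem_mk_left _ _)⟩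
  have _ := hPY
  rw [h1, card_union_of_disjoint, card_image_of_injOn]
  · intro a _ c _ hac
    exact Sym2.congr_right.1 hac
  · rw [disjoint_left]
    intro e he he'
    obtain ⟨_, x, hx, hxe⟩ := mem_filter.1 he
    obtain ⟨w, hw, rfl⟩ := mem_image.1 he'
    have hw' := (mem_sdiff.1 (mem_filter.1 hw).1).2
    rcases Sym2.mem_iff.1 hxe with rfl | rfl
    · exact hvP hx
    · exact hw' hx

/-- The batch of the second player. -/
theorem batch (hE : E ⊆ edges n) {D0 b : ℕ} (hD : ∀ z ∈ Y, nn E Y z ≤ D0)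
    (h1 : 4 * D0 + 20 ≤ Y.card) (h2 : 16 * b < Y.card ^ 2) :
    ∃ P ⊆ Y, ∃ X ⊆ ins Y E, X.card = b ∧ (∀ e ∈ ins Y E, (∃ v ∈ P, v ∈ e) → e ∈ X) ∧
      (∀ z ∈ Y \ P, ((Y \ P).filter (fun w => s(z, w) ∈ X)).card ≤ 4) ∧ 2 * P.card ≤ Y.card ∧
      2 * P.card * Y.card + P.card ≤ 2 * b + 2 * P.card * (1 + D0) + P.card ^ 2 := by
  classical
  set m := Y.card with hm
  have hne : (Y.powerset.filter (fun P => (icp E Y P).card ≤ b ∧ 2 * P.card ≤ m ∧
      2 * P.card * m + P.card ≤ 2 * (icp E Y P).card + 2 * P.card * (1 + D0) +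
        P.card ^ 2)).Nonempty := by
    refine ⟨∅, mem_filter.2 ⟨empty_mem_powerset _, ?_, ?_, ?_⟩⟩
    · simp [icp]
    · simp
    · simp
  obtain ⟨P, hP, hmax⟩ := exists_max_image _ (fun P => P.card) hne
  rw [mem_filter, mem_powerset] at hP
  obtain ⟨hPY, hPb, hPm, hPc⟩ := hP
  set p := P.card with hp
  have hZc : (Y \ P).card = m - p := by
    rw [card_sdiff_of_subset hPY]
  -- a further vertex
  obtain ⟨v, hv⟩ : (Y \ P).Nonempty := by
    rw [← card_pos, hZc]
    omega
  have hDZ : ∀ z ∈ Y \ P, nn E (Y \ P) z ≤ D0 := fun z hz =>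
    (nn_mono sdiff_subset z).trans (hD z (mem_sdiff.1 hz).1)
  have h3 := icp_insert (E := E) hPY hv
  have h4 := nb_add_nn hE hv
  have h5 := hDZ v hv
  rw [hZc] at h4
  set N := ((Y \ P).filter (fun w => s(v, w) ∈ E)).card with hN
  have hpm : 2 * (p + 1) ≤ m := by
    by_contra hcon
    push Not at hcon
    have a1 : m ≤ 2 * p + 1 := by omega
    -- 2 * icp ≥ p (2 m - 1 - 2 D0 - p)
    have a2 : m ^ 2 ≤ 4 * (icp E Y P).card := by
      zify at a1 hPc hPm h1 ⊢
      nlinarith
    omega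
  have hbig : b < (icp E Y (insert v P)).card := by
    by_contra hcon
    push Not at hcon
    have hvP : v ∉ P := (mem_sdiff.1 hv).2
    have a1 : insert v P ∈ (Y.powerset.filter (fun P => (icp E Y P).card ≤ b ∧ 2 * P.card ≤ m ∧
        2 * P.card * m + P.card ≤ 2 * (icp E Y P).card + 2 * P.card * (1 + D0) +
          P.card ^ 2)) := by
      rw [mem_filter, mem_powerset, card_insert_of_notMem hvP, h3]
      refine ⟨insert_subset (mem_sdiff.1 hv).1 hPY, by rw [← h3]; exact hcon, hpm, ?_⟩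
      have a2 : m ≤ N + p + 1 + D0 := by omega
      rw [← hp]
      nlinarith
    have a3 := hmax _ a1
    rw [card_insert_of_notMem hvP] at a3
    omega
  obtain ⟨L, hL, hLc, hL4⟩ := leftover hE hDZ (by rw [hZc]; omega) (b - (icp E Y P).card) (by
    rw [hZc]
    omega)
  have hdis : Disjoint (icp E Y P) L := by
    rw [disjoint_left]
    intro e he he'
    obtain ⟨_, x, hx, hxe⟩ := mem_filter.1 he
    have a1 := (mem_filter.1 (hL he')).2 x hxe
    exact (mem_sdiff.1 a1).2 hx
  refine ⟨P, hPY, icp E Y P ∪ L, ?_, ?_, ?_, ?_, hPm, ?_⟩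
  · intro e he
    rcases mem_union.1 he with he | he
    · exact (mem_filter.1 he).1
    · have a1 := mem_filter.1 (hL he)
      exact mem_filter.2 ⟨a1.1, fun x hx => (mem_sdiff.1 (a1.2 x hx)).1⟩
  · rw [card_union_of_disjoint hdis, hLc]
    omega
  · intro e he hx
    exact mem_union_left _ (mem_filter.2 ⟨he, hx⟩)
  · intro z hz
    refine le_trans (card_le_card ?_) ((nbr_card_le (B := L) (Y \ P) z).trans (hL4 z))
    intro w hw
    rw [mem_filter] at hw ⊢
    refine ⟨hw.1, ?_⟩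
    rcases mem_union.1 hw.2 with a1 | a1
    · exfalso
      obtain ⟨_, x, hx, hxe⟩ := mem_filter.1 a1
      rcases Sym2.mem_iff.1 hxe with rfl | rfl
      · exact (mem_sdiff.1 hz).2 hx
      · exact (mem_sdiff.1 hw.1).2 hx
    · exact a1
  · calc 2 * p * m + p ≤ 2 * (icp E Y P).card + 2 * p * (1 + D0) + p ^ 2 := hPc
      _ ≤ 2 * b + 2 * p * (1 + D0) + p ^ 2 := by omega

end Pool.Agent.IG71
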