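import Pool.Agent.IG71.FSide

/-!
# IG71-FNum: the numerical conclusion for the first player
-/

namespace Pool.Agent.IG71

open Finset Pool.Agent.IG19

variable {n : ℕ} {b : ℕ}

theorem free_empty : free (∅ : Finset (Sym2 (Fin n))) ∅ = edges n := by simp [free]

theorem ind_init (x y : Fin n) :
    ind (univ : Finset (Fin n)) (edges n) x y = if x = y then 0 else 1 := by
  unfold ind
  by_cases h : x = y
  · rw [if_neg, if_pos h]
    rintro ⟨_, _, h3⟩
    exact mk_mem_edges.1 h3 h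
  · rw [if_pos, if_neg h]
    exact ⟨mem_univ _, mem_univ _, mk_mem_edges.2 h⟩

theorem RR_init : RR (univ : Finset (Fin n)) (edges n) = (n : ℝ) * ((n - 1 : ℕ) : ℝ) := by
  unfold RR
  have : ∀ x : Fin n, ld (edges n) x = n - 1 := fun x => card_star x
  simp only [this, sum_const, card_univ, Fintype.card_fin, nsmul_eq_mul]

theorem VV_init : VV (ind (univ : Finset (Fin n)) (edges n)) ≤ 2 / 3 * (n : ℝ) ^ 3 + (n : ℝ) ^ 2 := by
  have h1 : PP (ind (univ : Finset (Fin n)) (edges n)) (ind univ (edges n)) ≤ (n : ℝ) ^ 3 := by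
    unfold PP
    calc ∑ x : Fin n, ∑ y : Fin n, ∑ z : Fin n, ind univ (edges n) x y * ind univ (edges n) x z
        ≤ ∑ x : Fin n, ∑ y : Fin n, ∑ z : Fin n, (1 : ℝ) :=
          sum_le_sum fun x _ => sum_le_sum fun y _ => sum_le_sum fun z _ =>
            mul_le_one₀ (ind_le_one _ _ _ _) (ind_nonneg _ _ _ _) (ind_le_one _ _ _ _)
      _ = (n : ℝ) ^ 3 := by
          simp only [sum_const, card_univ, Fintype.card_fin, nsmul_eq_mul, mul_one]
          ring
  have h2 : (n : ℝ) ^ 3 - 3 * (n : ℝ) ^ 2 ≤ TT (ind (univ : Finset (Fin n)) (edges n))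
      (ind univ (edges n)) (ind univ (edges n)) := by
    unfold TT
    calc (n : ℝ) ^ 3 - 3 * (n : ℝ) ^ 2 = ∑ x : Fin n, ∑ y : Fin n, ∑ z : Fin n,
          ((1 : ℝ) - (if x = y then 1 else 0) - (if y = z then 1 else 0) -
            (if x = z then 1 else 0)) := by
          simp only [sum_sub_distrib, sum_const, card_univ, Fintype.card_fin, nsmul_eq_mul, mul_one,
            sum_ite_eq, mem_univ, if_true, ← mul_sum]
          ring
      _ ≤ _ := sum_le_sum fun x _ => sum_le_sum fun y _ => sum_le_sum fun z _ => by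
          rw [ind_init, ind_init, ind_init]
          split_ifs <;> norm_num
  have h3 : 0 ≤ DD (ind (univ : Finset (Fin n)) (edges n)) := DD_nonneg _ (ind_nonneg _ _)
  unfold VV
  linarith

theorem QQ_init (hn : 1 ≤ n) : (n : ℝ) * (n - 1) - (2 / 3 * (n : ℝ) ^ 3 + (n : ℝ) ^ 2) / b ≤
    QQ b (U (∅ : Finset (Sym2 (Fin n)))) (free ∅ ∅) := by
  unfold QQ
  rw [U_empty, free_empty, RR_init, Nat.cast_sub hn, Nat.cast_one]
  have h1 : VV (ind (univ : Finset (Fin n)) (edges n)) / b ≤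
      (2 / 3 * (n : ℝ) ^ 3 + (n : ℝ) ^ 2) / b :=
    div_le_div_of_nonneg_right VV_init (Nat.cast_nonneg b)
  linarith

/-- The bound for the first player. -/
theorem f_num (hn : 1 ≤ n) (hb : 2 * n ≤ b) :
    (n : ℝ) ^ 2 / b - 2 / 3 * ((n : ℝ) ^ 3 / (b : ℝ) ^ 2) - 2 - 2 * ((n : ℝ) ^ 4 / (b : ℝ) ^ 3) ≤
      (n : ℝ) - f n b := by
  have hn' : (1 : ℝ) ≤ n := by exact_mod_cast hn
  have hb' : (2 : ℝ) * n ≤ b := by exact_mod_cast hb
  have hb0 : (0 : ℝ) < b := by linarith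
  have hf : (f n b : ℝ) ≤ n := by exact_mod_cast f_le
  set K := (n : ℝ) ^ 2 / b - 2 / 3 * ((n : ℝ) ^ 3 / (b : ℝ) ^ 2) - 2 -
    2 * ((n : ℝ) ^ 4 / (b : ℝ) ^ 3) with hK
  rcases le_or_gt K 0 with h0 | h0
  · linarith
  · refine f_side hb (by omega) K ?_
    refine le_trans ?_ (QQ_init hn)
    set a := (n : ℝ) ^ 2 / b with ha
    have ha0 : 0 ≤ a := by positivity
    have hKa : K ≤ a := by
      have h1 : 0 ≤ (n : ℝ) ^ 3 / (b : ℝ) ^ 2 := by positivity
      have h2 : 0 ≤ (n : ℝ) ^ 4 / (b : ℝ) ^ 3 := by positivity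
      linarith
    have hab : a ≤ b / 4 := by
      rw [ha, div_le_iff₀ hb0]
      nlinarith
    have hKb : K * b = (n : ℝ) ^ 2 - 2 / 3 * ((n : ℝ) ^ 3 / b) - 2 * b - 2 * a ^ 2 := by
      rw [hK, ha]
      field_simp
    have hsq : 0 ≤ Real.sqrt b := Real.sqrt_nonneg _
    have hsq2 : Real.sqrt b ^ 2 = b := Real.sq_sqrt hb0.le
    have h1 : K * (K + 3 + Real.sqrt b) ≤ a * (a + 3 + Real.sqrt b) :=
      mul_le_mul hKa (by linarith) (by positivity) ha0
    have h2 : a * Real.sqrt b ≤ a ^ 2 + b / 4 := by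
      nlinarith [sq_nonneg (a - Real.sqrt b / 2)]
    have h3 : (2 / 3 * (n : ℝ) ^ 3 + (n : ℝ) ^ 2) / b = 2 / 3 * ((n : ℝ) ^ 3 / b) + a := by
      rw [ha]
      ring
    rw [h3]
    have h4 : K * (b + K + 3 + Real.sqrt b) = K * b + K * (K + 3 + Real.sqrt b) := by ring
    rw [h4, hKb]
    nlinarith

end Pool.Agent.IG71
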