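import Pool.Agent.IG71.Ind

/-!
# IG71-FSide: the strategy of the first player

`F` claims the edge inside `U A` with the least sum of degrees in the graph of the free edges inside
`U A`, as long as there is one, and afterwards any free edge with an end in `U A`.
-/

namespace Pool.Agent.IG71

open Finset Pool.Agent.IG19

variable {n : ℕ} {b k : ℕ} {A B X F F' : Finset (Sym2 (Fin n))} {W W' : Finset (Fin n)}

/-- The potential of the first player. -/
noncomputable def QQ (b : ℕ) (W : Finset (Fin n)) (F : Finset (Sym2 (Fin n))) : ℝ :=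
  RR W F - VV (ind W F) / b

theorem DD_ind_le (hX : X ⊆ edges n) : DD (ind W X) / 2 ≤ X.card := by
  have h1 := DD_le_RR (W := W) hX
  have h2 := RR_le (W := W) hX
  linarith

theorem QQ_S (hF : F ⊆ edges n) (hX : X ⊆ F) (hXc : X.card ≤ b) (hb : 0 < b) {c : ℝ}
    (hcb : c ≤ b)
    (hc : ∀ x ∈ W, ∀ y ∈ W, s(x, y) ∈ X → c ≤ ∑ z, ind W F x z + ∑ z, ind W F y z) :
    QQ b W F ≤ QQ b W (F \ X) + (2 * b - c + 1 / 2 + Real.sqrt b) := by
  have hb' : (0 : ℝ) < b := by exact_mod_cast hb
  have hX' : X ⊆ edges n := hX.trans hF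
  have h1 := RR_sdiff (W := W) hX
  have h2 := RR_le (W := W) hX'
  have h3 := DD_ind_le (W := W) hX'
  have h4 : (X.card : ℝ) ≤ b := by exact_mod_cast hXc
  have h5 := ind_sdiff (W := W) hX
  have h6 : VV (ind W (F \ X)) + DD (ind W X) / 2 * (c - 1 / 2 - Real.sqrt b) ≤
      VV (ind W F) := by
    rw [h5]
    refine VV_drop _ _ (ind_symm _ _) (ind_symm _ _) (ind_nonneg _ _) (ind_01 _ _) ?_ ?_ ?_
    · intro x y
      have e : (ind W (F \ X) + ind W X) x y = ind W F x y := by rw [← h5]
      simp only [Pi.add_apply] at e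
      rw [e]
      exact ind_le_one _ _ _ _
    · linarith
    · intro x y hxy
      rw [← h5]
      rw [ind_eq_one] at hxy
      exact hc x hxy.1 y hxy.2.1 hxy.2.2
  have h7 : 0 ≤ Real.sqrt b := Real.sqrt_nonneg _
  set s := DD (ind W X) / 2 with hs
  set c' := c - 1 / 2 - Real.sqrt b with hc'
  have h8 : 0 ≤ (b - s) * (b - c') := by
    apply mul_nonneg
    · linarith
    · linarith
  have h9 : VV (ind W (F \ X)) / b + s * c' / b ≤ VV (ind W F) / b := by
    rw [← add_div]
    exact (div_le_div_iff_of_pos_right hb').2 h6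
  have h10 : b + s - s * c' / b ≤ 2 * b - c' := by
    have : (b : ℝ) + s - s * c' / b = 2 * b - c' - (b - s) * (b - c') / b := by
      field_simp
      ring
    rw [this]
    have : 0 ≤ (b - s) * (b - c') / b := div_nonneg h8 hb'.le
    linarith
  unfold QQ
  linarith

/-- The set of untouched vertices after a claim of `F`. -/
theorem U_insert_eq (A : Finset (Sym2 (Fin n))) (u v : Fin n) :
    U (insert s(u, v) A) = U A \ {u, v} := by
  ext x
  rw [mem_U_insert, mem_sdiff, Sym2.mem_iff, mem_insert, mem_singleton]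
  tauto

theorem QQ_F {u v : Fin n} (hu : u ∈ U A) (hv : v ∈ U A) (huv : u ≠ v)
    (he : s(u, v) ∈ free A B) :
    QQ b (U A) (free A B) ≤ QQ b (U (insert s(u, v) A)) (free (insert s(u, v) A) B) +
      (ld (free A B) u + ld (free A B) v) := by
  have hsub : ({u, v} : Finset (Fin n)) ⊆ U A := by
    intro x hx
    rw [mem_insert, mem_singleton] at hx
    rcases hx with rfl | rfl
    · exact hu
    · exact hv
  have h1 : RR (U A) (free A B) = RR (U (insert s(u, v) A)) (free (insert s(u, v) A) B) +
      (ld (free A B) u + ld (free A B) v) := by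
    rw [free_insert he, RR_erase]
    · unfold RR
      rw [U_insert_eq, ← sum_sdiff hsub, sum_pair huv]
    · intro x hx
      exact (mem_U_insert.1 hx).1
  have h2 : VV (ind (U (insert s(u, v) A)) (free (insert s(u, v) A) B)) ≤
      VV (ind (U A) (free A B)) := by
    refine VV_ind_mono U_insert_subset ?_
    rw [free_insert he]
    exact erase_subset _ _
  have h3 : VV (ind (U (insert s(u, v) A)) (free (insert s(u, v) A) B)) / b ≤
      VV (ind (U A) (free A B)) / b :=
    div_le_div_of_nonneg_right h2 (Nat.cast_nonneg b)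
  unfold QQ
  linarith

/-- After the claim of `F` the degrees drop by at most two. -/
theorem dg_drop {u v x : Fin n} (hx : x ∈ U (insert s(u, v) A)) (he : s(u, v) ∈ free A B) :
    ∑ z, ind (U A) (free A B) x z ≤
      ∑ z, ind (U (insert s(u, v) A)) (free (insert s(u, v) A) B) x z + 2 := by
  have h1 : ∀ z, ind (U A) (free A B) x z ≤
      ind (U (insert s(u, v) A)) (free (insert s(u, v) A) B) x z +
        if z ∈ ({u, v} : Finset (Fin n)) then (1 : ℝ) else 0 := by
    intro z
    by_cases hz : z ∈ ({u, v} : Finset (Fin n))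
    · rw [if_pos hz]
      have a1 := ind_le_one (U A) (free A B) x z
      have a2 := ind_nonneg (U (insert s(u, v) A)) (free (insert s(u, v) A) B) x z
      linarith
    · rw [if_neg hz, add_zero]
      rcases ind_01 (U A) (free A B) x z with h | h
      · rw [h]
        exact ind_nonneg _ _ _ _
      · rw [ind_eq_one] at h
        have h3 : ind (U (insert s(u, v) A)) (free (insert s(u, v) A) B) x z = 1 := by
          refine ind_eq_one.2 ⟨hx, ?_, ?_⟩
          · rw [U_insert_eq, mem_sdiff]
            exact ⟨h.2.1, hz⟩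
          · rw [free_insert he, mem_erase]
            refine ⟨?_, h.2.2⟩
            intro hh
            have := (mem_U_insert.1 hx).1
            rw [← hh] at this
            exact this (Sym2.mem_mk_left _ _)
        rw [h3]
        exact ind_le_one _ _ _ _
  calc ∑ z, ind (U A) (free A B) x z
      ≤ ∑ z, (ind (U (insert s(u, v) A)) (free (insert s(u, v) A) B) x z +
        if z ∈ ({u, v} : Finset (Fin n)) then (1 : ℝ) else 0) := sum_le_sum fun z _ => h1 z
    _ = ∑ z, ind (U (insert s(u, v) A)) (free (insert s(u, v) A) B) x z +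
        ∑ z, (if z ∈ ({u, v} : Finset (Fin n)) then (1 : ℝ) else 0) := sum_add_distrib
    _ ≤ _ := by
        have a1 : ∑ z, (if z ∈ ({u, v} : Finset (Fin n)) then (1 : ℝ) else 0) ≤ 2 := by
          rw [sum_ite_mem, univ_inter, sum_const, nsmul_eq_mul, mul_one]
          exact_mod_cast card_le_two
        linarith

/-- The number of touched vertices. -/
noncomputable def tch (A : Finset (Sym2 (Fin n))) : ℝ := (n : ℝ) - (U A).card

theorem tch_nonneg (A : Finset (Sym2 (Fin n))) : 0 ≤ tch A := by
  unfold tch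
  have : ((U A).card : ℝ) ≤ n := by exact_mod_cast card_finset_fin_le (U A)
  linarith

theorem tch_mono (A : Finset (Sym2 (Fin n))) (e : Sym2 (Fin n)) : tch A ≤ tch (insert e A) := by
  unfold tch
  have : ((U (insert e A)).card : ℝ) ≤ (U A).card := by
    exact_mod_cast card_le_card (U_insert_subset (A := A) (e := e))
  linarith

/-- One round while a free edge lies inside `U A`. -/
theorem round_double (hb : 2 * n ≤ b) (hb0 : 0 < b) (hne : ∃ u ∈ U A, ∃ v ∈ U A, s(u, v) ∈ free A B) :
    ∃ e ∈ free A B, ∀ X, X ⊆ free (insert e A) B → X.card ≤ b →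
      QQ b (U A) (free A B) ≤ QQ b (U (insert e A)) (free (insert e A) (B ∪ X)) +
        2 * (b + tch A + 3 + Real.sqrt b) ∧ tch (insert e A) = tch A + 2 := by
  classical
  obtain ⟨u0, hu0, v0, hv0, he0⟩ := hne
  have hne' : (((U A) ×ˢ (U A)).filter (fun p => s(p.1, p.2) ∈ free A B)).Nonempty :=
    ⟨(u0, v0), mem_filter.2 ⟨mem_product.2 ⟨hu0, hv0⟩, he0⟩⟩
  obtain ⟨⟨u, v⟩, hp, hmin⟩ := exists_min_image _
    (fun p => ∑ z, ind (U A) (free A B) p.1 z + ∑ z, ind (U A) (free A B) p.2 z) hne'
  rw [mem_filter, mem_product] at hp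
  obtain ⟨⟨hu, hv⟩, he⟩ := hp
  simp only at hu hv he
  have huv : u ≠ v := mk_mem_edges.1 (mem_free.1 he).1
  set μ := ∑ z, ind (U A) (free A B) u z + ∑ z, ind (U A) (free A B) v z with hμ
  have hμ2 : μ ≤ 2 * n := by
    have a1 := dg_le (U A) (free A B) u
    have a2 := dg_le (U A) (free A B) v
    linarith
  have hb' : (2 : ℝ) * n ≤ b := by exact_mod_cast hb
  have hfE : free A B ⊆ edges n := fun x hx => (mem_free.1 hx).1
  have htc : tch (insert s(u, v) A) = tch A + 2 := by
    have h2 : ({u, v} : Finset (Fin n)) ⊆ U A := by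
      intro x hx
      rw [mem_insert, mem_singleton] at hx
      rcases hx with rfl | rfl
      · exact hu
      · exact hv
    have h3 : (U (insert s(u, v) A)).card + 2 = (U A).card := by
      rw [U_insert_eq, ← card_pair huv, card_sdiff_add_card_eq_card h2]
    unfold tch
    rw [← h3]
    push_cast
    ring
  refine ⟨s(u, v), he, fun X hX hXc => ⟨?_, htc⟩⟩
  have h1 := QQ_F (b := b) hu hv huv he
  have hf2 : free (insert s(u, v) A) B ⊆ edges n := fun x hx => (mem_free.1 hx).1
  have h2 := QQ_S (W := U (insert s(u, v) A)) (c := μ - 4) hf2 hX hXc hb0 (by linarith) ?_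
  · have a1 := ld_le_dg hfE hu
    have a2 := ld_le_dg hfE hv
    have a3 : ((n : ℝ) - (U A).card) = tch A := rfl
    rw [a3] at a1 a2
    rw [free_union]
    have a4 : 0 ≤ Real.sqrt b := Real.sqrt_nonneg _
    linarith
  · intro x hx y hy hxy
    have a1 := dg_drop hx he
    have a2 := dg_drop hy he
    have hxU := U_insert_subset hx
    have hyU := U_insert_subset hy
    have hxf : s(x, y) ∈ free A B := by
      have := hX hxy
      rw [free_insert he] at this
      exact mem_of_mem_erase this
    have a3 := hmin (x, y) (mem_filter.2 ⟨mem_product.2 ⟨hxU, hyU⟩, hxf⟩)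
    simp only at a3
    linarith

/-- One round when no free edge lies inside `U A` but some free edge has an end in `U A`. -/
theorem round_single (hin : ∀ u ∈ U A, ∀ v ∈ U A, s(u, v) ∉ free A B)
    (hne : ∃ u ∈ U A, ∃ e ∈ free A B, u ∈ e) :
    ∃ e ∈ free A B, ∀ X, X ⊆ free (insert e A) B → X.card ≤ b →
      QQ b (U A) (free A B) ≤ QQ b (U (insert e A)) (free (insert e A) (B ∪ X)) +
        (b + tch A) ∧ tch (insert e A) = tch A + 1 := by
  obtain ⟨u, hu, e, he, hue⟩ := hne
  obtain ⟨t, rfl⟩ := Sym2.mem_iff_exists.1 hue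
  have hut : u ≠ t := mk_mem_edges.1 (mem_free.1 he).1
  have ht : t ∉ U A := fun ht => hin u hu t ht he
  have hU : U (insert s(u, t) A) = (U A).erase u := by
    rw [U_insert_eq]
    ext x
    rw [mem_sdiff, mem_erase, mem_insert, mem_singleton]
    constructor
    · rintro ⟨h1, h2⟩
      exact ⟨fun h => h2 (Or.inl h), h1⟩
    · rintro ⟨h1, h2⟩
      refine ⟨h2, ?_⟩
      rintro (h | h)
      · exact h1 h
      · exact ht (h ▸ h2)
  have htc : tch (insert s(u, t) A) = tch A + 1 := by
    have h3 := card_erase_add_one hu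
    unfold tch
    rw [hU, ← h3]
    push_cast
    ring
  have hfE : free A B ⊆ edges n := fun x hx => (mem_free.1 hx).1
  refine ⟨s(u, t), he, fun X hX hXc => ⟨?_, htc⟩⟩
  have e0 : ind (U A) (free A B) = 0 := ind_eq_zero hin
  have e1 : ∀ F' ⊆ free A B, ind (U (insert s(u, t) A)) F' = 0 := by
    intro F' hF'
    refine ind_eq_zero fun x hx y hy hxy => ?_
    exact hin x (U_insert_subset hx) y (U_insert_subset hy) (hF' hxy)
  have hsub : free (insert s(u, t) A) B ⊆ free A B := by
    rw [free_insert he]
    exact erase_subset _ _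
  have hX2 : X ⊆ free A B := hX.trans hsub
  have h2 : RR (U A) (free A B) =
      RR (U (insert s(u, t) A)) (free (insert s(u, t) A) B) + ld (free A B) u := by
    rw [free_insert he, RR_erase]
    · unfold RR
      rw [hU, sum_erase_add _ _ hu]
    · intro x hx
      exact (mem_U_insert.1 hx).1
  have h3 := ld_le_dg hfE hu
  have h4 : ∑ y, ind (U A) (free A B) u y = 0 := by rw [e0]; simp
  have h5 := RR_sdiff (W := U (insert s(u, t) A)) hX
  have h6 := RR_le (W := U (insert s(u, t) A)) (hX2.trans hfE)
  rw [e1 X hX2, DD_zero] at h6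
  have h7 : (X.card : ℝ) ≤ b := by exact_mod_cast hXc
  have h8 : ((n : ℝ) - (U A).card) = tch A := rfl
  rw [h8, h4] at h3
  rw [free_union]
  unfold QQ
  rw [e0, e1 _ (sdiff_subset.trans hsub), VV_zero]
  simp only [zero_div, sub_zero]
  linarith

/-- If no free edge has an end in `U A` the potential vanishes. -/
theorem QQ_zero (hne : ¬ ∃ u ∈ U A, ∃ e ∈ free A B, u ∈ e) : QQ b (U A) (free A B) = 0 := by
  have e0 : ind (U A) (free A B) = 0 := by
    refine ind_eq_zero fun x hx y _ hxy => hne ⟨x, hx, _, hxy, Sym2.mem_mk_left _ _⟩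
  have e1 : RR (U A) (free A B) = 0 := by
    unfold RR
    refine sum_eq_zero fun x hx => ?_
    have : ld (free A B) x = 0 := by
      unfold ld
      rw [card_eq_zero, filter_eq_empty_iff]
      intro e he hxe
      exact hne ⟨x, hx, e, he, hxe⟩
    rw [this]
    simp
  unfold QQ
  rw [e0, e1, VV_zero]
  simp

/-- The conclusion of the strategy of the first player. -/
theorem f_side (hb : 2 * n ≤ b) (hb0 : 0 < b) (K : ℝ)
    (hK : K * (b + K + 3 + Real.sqrt b) ≤ QQ b (U (∅ : Finset (Sym2 (Fin n)))) (free ∅ ∅)) :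
    K ≤ (n : ℝ) - f n b := by
  have hb' : (0 : ℝ) < b := by exact_mod_cast hb0
  have hsq : 0 ≤ Real.sqrt b := Real.sqrt_nonneg _
  by_contra hcon
  push Not at hcon
  have hf : (f n b : ℝ) ≤ n := by exact_mod_cast f_le
  have hK0 : 0 < K := by linarith
  set β := (b : ℝ) + K + 3 + Real.sqrt b with hβ
  have hβ0 : 0 < β := by positivity
  have hmain : ¬ Guar n b (f n b) true ∅ ∅ := by
    refine not_guar (fun A B => Valid A B ∧
      (K ≤ tch A ∨ K * β ≤ tch A * β + QQ b (U A) (free A B))) ?_ ?_ ?_
    · rintro A B ⟨hv, h⟩ h0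
      have h1 : K ≤ tch A := by
        rcases h with h | h
        · exact h
        · rw [QQ_zero (by rw [h0]; simp), add_zero] at h
          exact le_of_mul_le_mul_right h hβ0
      unfold tch at h1
      have : ((U A).card : ℝ) < f n b := by linarith
      exact_mod_cast this
    · rintro A B ⟨hv, h⟩ hfr
      by_cases hKt : K ≤ tch A
      · obtain ⟨e, he⟩ := nonempty_iff_ne_empty.2 hfr
        exact ⟨e, he, fun X hX _ => ⟨(hv.insertA he).unionB hX, Or.inl (hKt.trans (tch_mono A e))⟩⟩
      · have h2 : K * β ≤ tch A * β + QQ b (U A) (free A B) := h.resolve_left hKt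
        push Not at hKt
        by_cases hd : ∃ u ∈ U A, ∃ v ∈ U A, s(u, v) ∈ free A B
        · obtain ⟨e, he, hX⟩ := round_double hb hb0 hd
          refine ⟨e, he, fun X hX1 hX2 => ⟨(hv.insertA he).unionB hX1, Or.inr ?_⟩⟩
          obtain ⟨h3, h4⟩ := hX X hX1 (hX2 ▸ min_le_left _ _)
          rw [h4]
          have h5 : 2 * (b + tch A + 3 + Real.sqrt b) ≤ 2 * β := by
            rw [hβ]
            linarith
          linarith
        · push Not at hd
          by_cases hs : ∃ u ∈ U A, ∃ e ∈ free A B, u ∈ e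
          · obtain ⟨e, he, hX⟩ := round_single (b := b) hd hs
            refine ⟨e, he, fun X hX1 hX2 => ⟨(hv.insertA he).unionB hX1, Or.inr ?_⟩⟩
            obtain ⟨h3, h4⟩ := hX X hX1 (hX2 ▸ min_le_left _ _)
            rw [h4]
            have h5 : b + tch A ≤ β := by
              rw [hβ]
              linarith
            linarith
          · exfalso
            rw [QQ_zero hs, add_zero] at h2
            have := le_of_mul_le_mul_right h2 hβ0
            linarith
    · refine ⟨valid_empty, Or.inr ?_⟩
      have : tch (∅ : Finset (Sym2 (Fin n))) = 0 := by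
        unfold tch
        rw [U_empty, card_univ, Fintype.card_fin]
        ring
      rw [this, zero_mul, zero_add]
      exact hK
  exact hmain (isGreatest_f n b).1

end Pool.Agent.IG71
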