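import Pool.Agent.IG71.Pure
import Pool.Agent.IG19.GameA
import Pool.Agent.IG19.BasicB
import Pool.Agent.IG19.SupUp

/-!
# IG71-Ind: adjacency functions of positions
-/

namespace Pool.Agent.IG71

open Finset Pool.Agent.IG19

variable {n : ℕ} {b k : ℕ} {A B X F F' : Finset (Sym2 (Fin n))} {W W' : Finset (Fin n)}

/-- The adjacency function of the graph of the elements of `F` with both ends in `W`. -/
noncomputable def ind (W : Finset (Fin n)) (F : Finset (Sym2 (Fin n))) (x y : Fin n) : ℝ :=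
  if x ∈ W ∧ y ∈ W ∧ s(x, y) ∈ F then 1 else 0

/-- The sum of the degrees in `F` of the vertices of `W`. -/
noncomputable def RR (W : Finset (Fin n)) (F : Finset (Sym2 (Fin n))) : ℝ :=
  ∑ x ∈ W, (ld F x : ℝ)

theorem ind_symm (W : Finset (Fin n)) (F : Finset (Sym2 (Fin n))) (x y : Fin n) :
    ind W F x y = ind W F y x := by
  unfold ind
  rw [Sym2.eq_swap]
  congr 1
  apply propext
  tauto

theorem ind_01 (W : Finset (Fin n)) (F : Finset (Sym2 (Fin n))) (x y : Fin n) :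
    ind W F x y = 0 ∨ ind W F x y = 1 := by
  unfold ind
  split_ifs
  · exact Or.inr rfl
  · exact Or.inl rfl

theorem ind_nonneg (W : Finset (Fin n)) (F : Finset (Sym2 (Fin n))) (x y : Fin n) :
    0 ≤ ind W F x y := by
  rcases ind_01 W F x y with e | e <;> simp [e]

theorem ind_le_one (W : Finset (Fin n)) (F : Finset (Sym2 (Fin n))) (x y : Fin n) :
    ind W F x y ≤ 1 := by
  rcases ind_01 W F x y with e | e <;> simp [e]

theorem ind_eq_one {x y : Fin n} : ind W F x y = 1 ↔ x ∈ W ∧ y ∈ W ∧ s(x, y) ∈ F := by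
  unfold ind
  split_ifs with h
  · simp [h]
  · simp [h]

theorem ind_mono (hW : W' ⊆ W) (hF : F' ⊆ F) (x y : Fin n) : ind W' F' x y ≤ ind W F x y := by
  rcases ind_01 W' F' x y with e | e
  · rw [e]
    exact ind_nonneg W F x y
  · rw [ind_eq_one] at e
    rw [ind_eq_one.2 ⟨hW e.1, hW e.2.1, hF e.2.2⟩]
    exact ind_le_one _ _ _ _

theorem VV_ind_mono (hW : W' ⊆ W) (hF : F' ⊆ F) : VV (ind W' F') ≤ VV (ind W F) := by
  have e : ind W F = ind W' F' + (ind W F - ind W' F') := by abel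
  rw [e]
  refine VV_mono _ _ (ind_symm W' F') ?_ (ind_nonneg W' F') ?_ ?_
  · intro x y
    simp only [Pi.sub_apply]
    rw [ind_symm W F x y, ind_symm W' F' x y]
  · intro x y
    simp only [Pi.sub_apply]
    have h1 := ind_mono hW hF x y
    rcases ind_01 W F x y with h2 | h2 <;> rcases ind_01 W' F' x y with h3 | h3 <;>
      rw [h2, h3] at h1 ⊢ <;> first | (norm_num; done) | (exfalso; linarith)
  · intro x y
    simp only [Pi.sub_apply]
    have := ind_le_one W F x y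
    linarith

theorem ind_sdiff (hX : X ⊆ F) : ind W F = ind W (F \ X) + ind W X := by
  funext x y
  simp only [Pi.add_apply]
  unfold ind
  by_cases h1 : x ∈ W ∧ y ∈ W
  · by_cases h2 : s(x, y) ∈ X
    · have h3 := hX h2
      simp [h1, h2, h3]
    · by_cases h3 : s(x, y) ∈ F
      · simp [h1, h2, h3]
      · simp [h1, h2, h3]
  · have e : ∀ G : Finset (Sym2 (Fin n)), ¬ (x ∈ W ∧ y ∈ W ∧ s(x, y) ∈ G) := by
      intro G h
      exact h1 ⟨h.1, h.2.1⟩
    simp only [e, if_false, add_zero]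

theorem ld_eq_card (hF : F ⊆ edges n) (x : Fin n) :
    ld F x = (univ.filter (fun y => s(x, y) ∈ F)).card := by
  have _ := hF
  have e : F.filter (fun e => x ∈ e) =
      (univ.filter (fun y => s(x, y) ∈ F)).image (fun y => s(x, y)) := by
    ext a
    simp only [mem_filter, mem_image, mem_univ, true_and]
    constructor
    · rintro ⟨h1, h2⟩
      obtain ⟨w, rfl⟩ := Sym2.mem_iff_exists.1 h2
      exact ⟨w, h1, rfl⟩
    · rintro ⟨w, h1, rfl⟩
      exact ⟨h1, Sym2.mem_mk_left x w⟩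
  unfold ld
  rw [e, card_image_of_injOn]
  intro a _ c _ hac
  exact Sym2.congr_right.1 hac

theorem ld_eq_sum (hF : F ⊆ edges n) (x : Fin n) :
    (ld F x : ℝ) = ∑ y, if s(x, y) ∈ F then (1 : ℝ) else 0 := by
  rw [ld_eq_card hF, card_filter]
  push_cast
  rfl

theorem sum_ind_of_mem {x : Fin n} (hx : x ∈ W) :
    ∑ y, ind W F x y = ∑ y ∈ W, if s(x, y) ∈ F then (1 : ℝ) else 0 := by
  rw [← sum_subset (subset_univ W)]
  · refine sum_congr rfl fun y hy => ?_
    unfold ind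
    simp [hx, hy]
  · intro y _ hy
    unfold ind
    simp [hy]

theorem sum_ind_of_not_mem {x : Fin n} (hx : x ∉ W) : ∑ y, ind W F x y = 0 := by
  refine sum_eq_zero fun y _ => ?_
  unfold ind
  simp [hx]

theorem DD_ind : DD (ind W F) = ∑ x ∈ W, ∑ y ∈ W, if s(x, y) ∈ F then (1 : ℝ) else 0 := by
  unfold DD
  rw [← sum_subset (subset_univ W)]
  · exact sum_congr rfl fun x hx => sum_ind_of_mem hx
  · intro x _ hx
    exact sum_ind_of_not_mem hx

theorem ld_le_dg (hF : F ⊆ edges n) {x : Fin n} (hx : x ∈ W) :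
    (ld F x : ℝ) ≤ ∑ y, ind W F x y + ((n : ℝ) - W.card) := by
  rw [ld_eq_sum hF, sum_ind_of_mem hx, ← sum_add_sum_compl W]
  have h1 : ∑ y ∈ Wᶜ, (if s(x, y) ∈ F then (1 : ℝ) else 0) ≤ ∑ y ∈ Wᶜ, (1 : ℝ) :=
    sum_le_sum fun y _ => by split_ifs <;> norm_num
  have h2 : ∑ y ∈ Wᶜ, (1 : ℝ) = (n : ℝ) - W.card := by
    rw [sum_const, card_compl, Fintype.card_fin, nsmul_eq_mul, mul_one,
      Nat.cast_sub (card_finset_fin_le W)]
  linarith

theorem dg_le_ld (hF : F ⊆ edges n) {x : Fin n} (hx : x ∈ W) :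
    ∑ y, ind W F x y ≤ (ld F x : ℝ) := by
  rw [ld_eq_sum hF, sum_ind_of_mem hx]
  exact sum_le_sum_of_subset_of_nonneg (subset_univ W) fun y _ _ => by split_ifs <;> norm_num

theorem dg_le (W : Finset (Fin n)) (F : Finset (Sym2 (Fin n))) (x : Fin n) :
    ∑ y, ind W F x y ≤ n := by
  calc ∑ y, ind W F x y ≤ ∑ y : Fin n, (1 : ℝ) := sum_le_sum fun y _ => ind_le_one _ _ _ _
    _ = n := by simp

theorem DD_le_RR (hF : F ⊆ edges n) : DD (ind W F) ≤ RR W F := by
  unfold RR DD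
  rw [← sum_subset (subset_univ W)]
  · exact sum_le_sum fun x hx => dg_le_ld hF hx
  · intro x _ hx
    exact sum_ind_of_not_mem hx

/-- The sum of the `X`-degrees of the vertices of `W` is at most `|X|` plus the number of edges of `X`
inside `W`. -/
theorem RR_le (hX : X ⊆ edges n) : RR W X ≤ X.card + DD (ind W X) / 2 := by
  have h1 : RR W X = DD (ind W X) +
      ∑ x ∈ W, ∑ y ∈ Wᶜ, if s(x, y) ∈ X then (1 : ℝ) else 0 := by
    rw [DD_ind, ← sum_add_distrib]
    unfold RR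
    refine sum_congr rfl fun x _ => ?_
    rw [ld_eq_sum hX, ← sum_add_sum_compl W]
  have h2 : (∑ x, (ld X x : ℝ)) ≤ 2 * X.card := by
    have := sum_ld_le (X := X) (univ : Finset (Fin n))
    exact_mod_cast this
  have h3 : (∑ x, (ld X x : ℝ)) = RR W X + ∑ x ∈ Wᶜ, (ld X x : ℝ) := by
    unfold RR
    rw [sum_add_sum_compl W]
  have h4 : ∑ x ∈ W, ∑ y ∈ Wᶜ, (if s(x, y) ∈ X then (1 : ℝ) else 0) ≤
      ∑ x ∈ Wᶜ, (ld X x : ℝ) := by
    rw [sum_comm]
    refine sum_le_sum fun x _ => ?_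
    rw [ld_eq_sum hX]
    calc ∑ y ∈ W, (if s(y, x) ∈ X then (1 : ℝ) else 0)
        = ∑ y ∈ W, (if s(x, y) ∈ X then (1 : ℝ) else 0) := by
          refine sum_congr rfl fun y _ => ?_
          rw [Sym2.eq_swap]
      _ ≤ ∑ y, (if s(x, y) ∈ X then (1 : ℝ) else 0) :=
          sum_le_sum_of_subset_of_nonneg (subset_univ W) fun y _ _ => by
            split_ifs <;> norm_num
  linarith

theorem RR_sdiff (hX : X ⊆ F) : RR W F = RR W (F \ X) + RR W X := by
  unfold RR
  rw [← sum_add_distrib]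
  refine sum_congr rfl fun x _ => ?_
  have h1 : ld F x = ld (F \ X) x + ld X x := by
    rw [← ld_union_eq (disjoint_sdiff_self_left), sdiff_union_of_subset hX]
  rw [h1]
  push_cast
  rfl

theorem RR_nonneg : 0 ≤ RR W F := sum_nonneg fun _ _ => Nat.cast_nonneg _

theorem RR_mono (hW : W' ⊆ W) (hF : F' ⊆ F) : RR W' F' ≤ RR W F := by
  unfold RR
  calc ∑ x ∈ W', (ld F' x : ℝ) ≤ ∑ x ∈ W', (ld F x : ℝ) :=
        sum_le_sum fun x _ => by exact_mod_cast ld_mono hF x
    _ ≤ ∑ x ∈ W, (ld F x : ℝ) :=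
        sum_le_sum_of_subset_of_nonneg hW fun _ _ _ => Nat.cast_nonneg _

theorem RR_empty : RR W (∅ : Finset (Sym2 (Fin n))) = 0 := by
  unfold RR
  simp [ld_empty]

/-- If no edge of `F` lies inside `W` the adjacency function vanishes. -/
theorem ind_eq_zero (h : ∀ x ∈ W, ∀ y ∈ W, s(x, y) ∉ F) : ind W F = 0 := by
  funext x y
  unfold ind
  rw [if_neg]
  · rfl
  · rintro ⟨h1, h2, h3⟩
    exact h x h1 y h2 h3

theorem VV_zero : VV (0 : Fin n → Fin n → ℝ) = 0 := by
  simp [VV, PP, TT, DD]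

theorem DD_zero : DD (0 : Fin n → Fin n → ℝ) = 0 := by
  simp [DD]

/-- Effect of a claim of `F` on the potential. -/
theorem RR_erase {e : Sym2 (Fin n)} (he : ∀ x ∈ W', x ∉ e) : RR W' (F.erase e) = RR W' F := by
  unfold RR
  refine sum_congr rfl fun x hx => ?_
  have : ld (F.erase e) x = ld F x := by
    unfold ld
    congr 1
    ext a
    simp only [mem_filter, mem_erase]
    constructor
    · rintro ⟨⟨_, h1⟩, h2⟩
      exact ⟨h1, h2⟩
    · rintro ⟨h1, h2⟩
      exact ⟨⟨fun h3 => he x hx (h3 ▸ h2), h1⟩, h2⟩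
  rw [this]

end Pool.Agent.IG71
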