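import Mathlib

/-!
# IG71-Pure: the potential `Σ d(v)² - 2 #triangles - #edges / 2` of a graph

A graph on the finite type `V` is given by its symmetric `{0,1}`-valued adjacency function
`g : V → V → ℝ`.
-/

namespace Pool.Agent.IG71

open Finset

variable {V : Type*} [Fintype V]

/-- Twice the number of edges. -/
def DD (g : V → V → ℝ) : ℝ := ∑ x, ∑ y, g x y

/-- The number of pairs of edges sharing the vertex `x`. -/
def PP (g h : V → V → ℝ) : ℝ := ∑ x, ∑ y, ∑ z, g x y * h x z

/-- The number of labelled triangles. -/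
def TT (f g h : V → V → ℝ) : ℝ := ∑ x, ∑ y, ∑ z, f x y * g y z * h x z

/-- The potential. -/
noncomputable def VV (g : V → V → ℝ) : ℝ := PP g g - TT g g g / 3 - DD g / 4

theorem TT_swap (f g h : V → V → ℝ) (hf : ∀ x y, f x y = f y x) : TT f g h = TT f h g := by
  unfold TT
  rw [sum_comm]
  refine sum_congr rfl fun x _ => sum_congr rfl fun y _ => sum_congr rfl fun z _ => ?_
  rw [hf y x]
  ring

theorem TT_swap' (f g h : V → V → ℝ) (hf : ∀ x y, f x y = f y x) (hg : ∀ x y, g x y = g y x)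
    (hh : ∀ x y, h x y = h y x) : TT f g h = TT g f h := by
  unfold TT
  have h1 : ∑ x, ∑ y, ∑ z, f x y * g y z * h x z = ∑ z, ∑ y, ∑ x, f x y * g y z * h x z := by
    rw [sum_comm]
    rw [show (∑ y, ∑ x, ∑ z, f x y * g y z * h x z) = ∑ y, ∑ z, ∑ x, f x y * g y z * h x z from
      sum_congr rfl fun y _ => sum_comm]
    rw [sum_comm]
  rw [h1]
  refine sum_congr rfl fun x _ => sum_congr rfl fun y _ => sum_congr rfl fun z _ => ?_
  rw [hf z y, hg y x, hh z x]
  ring

theorem PP_add_left (f g h : V → V → ℝ) : PP (f + g) h = PP f h + PP g h := by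
  unfold PP
  simp only [Pi.add_apply, add_mul, sum_add_distrib]

theorem PP_add_right (f g h : V → V → ℝ) : PP f (g + h) = PP f g + PP f h := by
  unfold PP
  simp only [Pi.add_apply, mul_add, sum_add_distrib]

theorem DD_add (f g : V → V → ℝ) : DD (f + g) = DD f + DD g := by
  unfold DD
  simp only [Pi.add_apply, sum_add_distrib]

theorem TT_add1 (f f' g h : V → V → ℝ) : TT (f + f') g h = TT f g h + TT f' g h := by
  unfold TT
  simp only [Pi.add_apply, add_mul, sum_add_distrib]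

theorem TT_add2 (f g g' h : V → V → ℝ) : TT f (g + g') h = TT f g h + TT f g' h := by
  unfold TT
  simp only [Pi.add_apply, mul_add, add_mul, sum_add_distrib]

theorem TT_add3 (f g h h' : V → V → ℝ) : TT f g (h + h') = TT f g h + TT f g h' := by
  unfold TT
  simp only [Pi.add_apply, mul_add, sum_add_distrib]

/-- Mixed cherries. -/
theorem PP_ge (g h : V → V → ℝ) (g0 : ∀ x y, 0 ≤ g x y) (h0 : ∀ x y, 0 ≤ h x y)
    (h1 : ∀ x y, g x y + h x y ≤ 1) : TT g g h + TT g h h ≤ PP g h := by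
  unfold TT PP
  rw [← sum_add_distrib]
  refine sum_le_sum fun x _ => ?_
  rw [← sum_add_distrib]
  refine sum_le_sum fun y _ => ?_
  rw [← sum_add_distrib]
  refine sum_le_sum fun z _ => ?_
  have e : g x y * g y z * h x z + g x y * h y z * h x z = (g x y * h x z) * (g y z + h y z) := by
    ring
  rw [e]
  exact mul_le_of_le_one_right (mul_nonneg (g0 x y) (h0 x z)) (h1 y z)

/-- The drop of the potential when the edges of `h` are removed. -/
theorem VV_add (g h : V → V → ℝ) (gs : ∀ x y, g x y = g y x) (hs : ∀ x y, h x y = h y x)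
    (g0 : ∀ x y, 0 ≤ g x y) (h0 : ∀ x y, 0 ≤ h x y) (h1 : ∀ x y, g x y + h x y ≤ 1) :
    VV g + (PP h (g + h) - DD h / 4 - TT h h h / 3) ≤ VV (g + h) := by
  have e1 : PP (g + h) (g + h) = PP g g + PP g h + PP h (g + h) := by
    rw [PP_add_left, PP_add_right g g h]
  have e2 : TT (g + h) (g + h) (g + h) =
      TT g g g + 3 * TT g g h + 3 * TT g h h + TT h h h := by
    rw [TT_add1, TT_add2, TT_add2, TT_add3, TT_add3, TT_add3, TT_add3]
    have a1 : TT g h g = TT g g h := TT_swap g h g gs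
    have a2 : TT h g g = TT g g h := by rw [TT_swap' h g g hs gs gs, a1]
    have a3 : TT h g h = TT g h h := TT_swap' h g h hs gs hs
    have a4 : TT h h g = TT g h h := by rw [TT_swap h h g hs, a3]
    rw [a1, a2, a3, a4]
    ring
  have e3 := PP_ge g h g0 h0 h1
  unfold VV
  rw [e1, e2, DD_add]
  linarith

theorem DD_nonneg (h : V → V → ℝ) (h0 : ∀ x y, 0 ≤ h x y) : 0 ≤ DD h :=
  sum_nonneg fun x _ => sum_nonneg fun y _ => h0 x y

theorem PP_mono_right (f g h : V → V → ℝ) (f0 : ∀ x y, 0 ≤ f x y) (hgh : ∀ x y, g x y ≤ h x y) :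
    PP f g ≤ PP f h :=
  sum_le_sum fun x _ => sum_le_sum fun y _ => sum_le_sum fun z _ =>
    mul_le_mul_of_nonneg_left (hgh x z) (f0 x y)

theorem PP_self_ge (h : V → V → ℝ) (h0 : ∀ x y, h x y = 0 ∨ h x y = 1) :
    DD h ≤ PP h h ∧ TT h h h ≤ PP h h := by
  have hn : ∀ x y, 0 ≤ h x y := fun x y => by rcases h0 x y with e | e <;> simp [e]
  have hl : ∀ x y, h x y ≤ 1 := fun x y => by rcases h0 x y with e | e <;> simp [e]
  constructor
  · unfold DD PP
    refine sum_le_sum fun x _ => sum_le_sum fun y _ => ?_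
    have e : h x y = h x y * h x y := by rcases h0 x y with e | e <;> simp [e]
    calc h x y = h x y * h x y := e
      _ ≤ ∑ z, h x y * h x z :=
        single_le_sum (f := fun z => h x y * h x z)
          (fun z _ => mul_nonneg (hn x y) (hn x z)) (mem_univ y)
  · unfold TT PP
    refine sum_le_sum fun x _ => sum_le_sum fun y _ => sum_le_sum fun z _ => ?_
    have e : h x y * h y z * h x z = (h x y * h x z) * h y z := by ring
    rw [e]
    exact mul_le_of_le_one_right (mul_nonneg (hn x y) (hn x z)) (hl y z)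

/-- Removing edges does not increase the potential. -/
theorem VV_mono (g h : V → V → ℝ) (gs : ∀ x y, g x y = g y x) (hs : ∀ x y, h x y = h y x)
    (g0 : ∀ x y, 0 ≤ g x y) (h0 : ∀ x y, h x y = 0 ∨ h x y = 1)
    (h1 : ∀ x y, g x y + h x y ≤ 1) : VV g ≤ VV (g + h) := by
  have hn : ∀ x y, 0 ≤ h x y := fun x y => by rcases h0 x y with e | e <;> simp [e]
  have e1 := VV_add g h gs hs g0 hn h1
  obtain ⟨e2, e3⟩ := PP_self_ge h h0
  have e4 : PP h h ≤ PP h (g + h) := PP_mono_right h h (g + h) hn fun x y => by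
    have := g0 x y
    simp only [Pi.add_apply]
    linarith
  have e5 := DD_nonneg h hn
  linarith

/-- The number of triangles is at most `(number of edges)^(3/2)`, up to the constant. -/
theorem TT_sq (h : V → V → ℝ) (hs : ∀ x y, h x y = h y x) (h0 : ∀ x y, h x y = 0 ∨ h x y = 1) :
    (TT h h h) ^ 2 ≤ (DD h) ^ 3 := by
  have hq : ∀ x y, h x y ^ 2 = h x y := fun x y => by
    rcases h0 x y with e | e <;> simp [e]
  have e1 : TT h h h = ∑ p : V × V, h p.1 p.2 * ∑ z, h p.2 z * h p.1 z := by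
    rw [Fintype.sum_prod_type]
    unfold TT
    refine sum_congr rfl fun x _ => sum_congr rfl fun y _ => ?_
    rw [mul_sum]
    exact sum_congr rfl fun z _ => by ring
  have e2 : (TT h h h) ^ 2 ≤ (∑ p : V × V, h p.1 p.2 ^ 2) *
      ∑ p : V × V, (∑ z, h p.2 z * h p.1 z) ^ 2 := by
    rw [e1]
    exact sum_mul_sq_le_sq_mul_sq _ _ _
  have e3 : (∑ p : V × V, h p.1 p.2 ^ 2) = DD h := by
    rw [Fintype.sum_prod_type]
    unfold DD
    exact sum_congr rfl fun x _ => sum_congr rfl fun y _ => hq x y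
  have e4 : ∑ p : V × V, (∑ z, h p.2 z * h p.1 z) ^ 2 ≤ (DD h) ^ 2 := by
    calc ∑ p : V × V, (∑ z, h p.2 z * h p.1 z) ^ 2
        ≤ ∑ p : V × V, (∑ z, h p.2 z ^ 2) * ∑ z, h p.1 z ^ 2 :=
          sum_le_sum fun p _ => sum_mul_sq_le_sq_mul_sq _ _ _
      _ = ∑ p : V × V, (∑ z, h p.2 z) * ∑ z, h p.1 z := by
          simp only [hq]
      _ = (DD h) ^ 2 := by
          rw [Fintype.sum_prod_type]
          unfold DD
          rw [sq, sum_mul]
          refine sum_congr rfl fun x _ => ?_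
          rw [mul_comm, sum_mul]
  have _ := hs
  have hn : ∀ x y, 0 ≤ h x y := fun x y => by rcases h0 x y with e | e <;> simp [e]
  have e5 := DD_nonneg h hn
  rw [e3] at e2
  calc (TT h h h) ^ 2 ≤ DD h * ∑ p : V × V, (∑ z, h p.2 z * h p.1 z) ^ 2 := e2
    _ ≤ DD h * (DD h) ^ 2 := mul_le_mul_of_nonneg_left e4 e5
    _ = (DD h) ^ 3 := by ring

theorem TT_le (h : V → V → ℝ) (hs : ∀ x y, h x y = h y x) (h0 : ∀ x y, h x y = 0 ∨ h x y = 1)
    {b : ℝ} (hb : DD h ≤ 2 * b) : TT h h h / 3 ≤ DD h / 2 * Real.sqrt b := by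
  have hn : ∀ x y, 0 ≤ h x y := fun x y => by rcases h0 x y with e | e <;> simp [e]
  have e5 := DD_nonneg h hn
  have hb0 : 0 ≤ b := by linarith
  have e1 := TT_sq h hs h0
  have e2 : (TT h h h) ^ 2 ≤ (3 * (DD h / 2 * Real.sqrt b)) ^ 2 := by
    have e3 : (3 * (DD h / 2 * Real.sqrt b)) ^ 2 = 9 / 4 * (DD h) ^ 2 * b := by
      have := Real.sq_sqrt hb0
      calc (3 * (DD h / 2 * Real.sqrt b)) ^ 2 = 9 / 4 * (DD h) ^ 2 * (Real.sqrt b) ^ 2 := by ring
        _ = 9 / 4 * (DD h) ^ 2 * b := by rw [this]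
    rw [e3]
    refine e1.trans ?_
    have e4 : (DD h) ^ 3 = (DD h) ^ 2 * DD h := by ring
    rw [e4]
    have e6 : 0 ≤ (DD h) ^ 2 := sq_nonneg _
    nlinarith
  have e7 : 0 ≤ 3 * (DD h / 2 * Real.sqrt b) := by positivity
  have e8 := abs_le_of_sq_le_sq e2 e7
  have e9 := le_abs_self (TT h h h)
  linarith

/-- The drop of the potential in terms of a lower bound for the sum of the two degrees of the
edges of `h`. -/
theorem VV_drop (g h : V → V → ℝ) (gs : ∀ x y, g x y = g y x) (hs : ∀ x y, h x y = h y x)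
    (g0 : ∀ x y, 0 ≤ g x y) (h0 : ∀ x y, h x y = 0 ∨ h x y = 1) (h1 : ∀ x y, g x y + h x y ≤ 1)
    {b c : ℝ} (hb : DD h ≤ 2 * b)
    (hc : ∀ x y, h x y = 1 → c ≤ ∑ z, (g + h) x z + ∑ z, (g + h) y z) :
    VV g + DD h / 2 * (c - 1 / 2 - Real.sqrt b) ≤ VV (g + h) := by
  have hn : ∀ x y, 0 ≤ h x y := fun x y => by rcases h0 x y with e | e <;> simp [e]
  have e1 := VV_add g h gs hs g0 hn h1
  have e2 := TT_le h hs h0 hb
  have e3 : DD h / 2 * c ≤ PP h (g + h) := by
    have a1 : PP h (g + h) = ∑ x, ∑ y, h x y * ∑ z, (g + h) x z := by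
      unfold PP
      refine sum_congr rfl fun x _ => sum_congr rfl fun y _ => ?_
      rw [mul_sum]
    have a2 : PP h (g + h) = ∑ x, ∑ y, h x y * ∑ z, (g + h) y z := by
      rw [a1, sum_comm]
      refine sum_congr rfl fun x _ => sum_congr rfl fun y _ => ?_
      rw [hs]
    have a3 : 2 * PP h (g + h) =
        ∑ x, ∑ y, h x y * (∑ z, (g + h) x z + ∑ z, (g + h) y z) := by
      rw [two_mul]
      nth_rewrite 1 [a1]
      rw [a2, ← sum_add_distrib]
      refine sum_congr rfl fun x _ => ?_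
      rw [← sum_add_distrib]
      exact sum_congr rfl fun y _ => by ring
    have a4 : DD h * c ≤ 2 * PP h (g + h) := by
      rw [a3]
      unfold DD
      rw [sum_mul]
      refine sum_le_sum fun x _ => ?_
      rw [sum_mul]
      refine sum_le_sum fun y _ => ?_
      rcases h0 x y with e | e
      · rw [e, zero_mul, zero_mul]
      · rw [e, one_mul, one_mul]
        exact hc x y e
    linarith
  nlinarith

end Pool.Agent.IG71
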