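import Pool.Agent.IG71.SRound
import Pool.Agent.IG71.FNum

/-!
# IG71-SMain: the conclusion for the second player
-/

namespace Pool.Agent.IG71

open Finset Pool.Agent.IG19

variable {n : ℕ} {b k : ℕ} {A B X F F' : Finset (Sym2 (Fin n))} {W W' Y : Finset (Fin n)}

theorem card_B_le (hB : B ⊆ edges n) : 4 * B.card ≤ 2 * n ^ 2 := by
  have h1 := card_le_card hB
  rw [card_edges] at h1
  have h2 : 2 * n.choose 2 ≤ n ^ 2 := by
    have := Nat.choose_two_right n
    have h3 : n.choose 2 * 2 = n * (n - 1) := by
      rw [this]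
      exact Nat.div_mul_cancel (Nat.even_mul_pred_self n).two_dvd
    have h4 : n * (n - 1) ≤ n * n := Nat.mul_le_mul_left n (Nat.sub_le n 1)
    rw [sq]
    omega
  omega

theorem tch_empty : tch (∅ : Finset (Sym2 (Fin n))) = 0 := by
  unfold tch
  rw [U_empty, card_univ, Fintype.card_fin]
  ring

/-- The conclusion of the strategy of the second player. -/
theorem s_side {m0 D0 : ℕ} (hn : 1 ≤ n) (hb : 0 < b) (hD0 : D0 = 2 * n ^ 2 / b) (hm1 : 4 * D0 + 20 ≤ m0)
    (hm2 : 16 * b < m0 ^ 2) {b' : ℝ} (hb' : 0 < b')
    (hb1 : b' + 5 * D0 + 3 + 2 * (n : ℝ) ^ 2 / b ≤ b)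
    (hb2 : b' + 2 * (n : ℝ) ^ 2 / b + 2 * n + 8 + 8 * D0 ≤ 2 * b) :
    (n : ℝ) - f n b ≤ ((n : ℝ) * (n - 1) - 2 / 3 * (n : ℝ) ^ 3 / b +
      2 / 3 * ((m0 : ℝ) + 2) ^ 3 / b) / b' + 2 := by
  classical
  have hbR : (0 : ℝ) < b := by exact_mod_cast hb
  have hnR : (1 : ℝ) ≤ n := by exact_mod_cast hn
  set C2 := (n : ℝ) * (n - 1) - 2 / 3 * (n : ℝ) ^ 3 / b + 2 / 3 * ((m0 : ℝ) + 2) ^ 3 / b with hC2
  set K := C2 / b' + 2 with hK
  have hbb : b' ≤ b := by
    have h1 : (0 : ℝ) ≤ 2 * (n : ℝ) ^ 2 / b := by positivity
    have h2 : (0 : ℝ) ≤ D0 := Nat.cast_nonneg _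
    linarith
  have hKb : K * b = C2 * (b / b') + 2 * b := by
    rw [hK]
    ring
  have hbb' : 1 ≤ b / b' := by
    rw [le_div_iff₀ hb']
    linarith
  by_contra hcon
  push Not at hcon
  have hmain : Guar n b (f n b + 1) true ∅ ∅ := by
    refine guar_of_inv (fun A B => (∃ Y, Good A B Y ∧ m0 + 2 ≤ Y.card ∧
      (∀ y ∈ Y, b * nn (free A B) Y y ≤ 4 * B.card) ∧
      pot b b' A B Y ≤ (n : ℝ) * (n - 1) - 2 / 3 * (n : ℝ) ^ 3 / b) ∨
      (Valid A B ∧ tch A * b + RR (U A) (free A B) + sg (U A) (free A B) * b ≤ K * b)) ?_ ?_ ?_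
    · rintro A B (⟨Y, hG, hYm, hnn, _⟩ | ⟨_, h⟩) hf
      · exfalso
        obtain ⟨y, hy⟩ := card_pos.1 (show 0 < Y.card by omega)
        have h1 := hnn y hy
        have h2 : nn (free A B) Y y + 1 = Y.card := by
          unfold nn
          rw [hf]
          simp only [notMem_empty, not_false_eq_true, filter_true]
          exact card_erase_add_one hy
        have h3 := card_B_le hG.hV.hB
        have h4 : nn (free A B) Y y ≤ D0 := by
          rw [hD0, Nat.le_div_iff_mul_le hb]
          rw [mul_comm]
          omega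
        omega
      · have h1 : 0 ≤ RR (U A) (free A B) := RR_nonneg
        have h2 : 0 ≤ sg (U A) (free A B) * b := mul_nonneg sg_nonneg hbR.le
        have h3 : tch A ≤ K := by
          have : tch A * b ≤ K * b := by linarith
          exact le_of_mul_le_mul_right this hbR
        unfold tch at h3
        have h4 : (f n b : ℝ) < (U A).card := by linarith
        have h5 : f n b < (U A).card := by exact_mod_cast h4
        exact h5
    · rintro A B (⟨Y, hG, hYm, hnn, hp⟩ | ⟨hV, h⟩) e he
      · have h3 := card_B_le hG.hV.hB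
        have hD : ∀ y ∈ Y, nn (free A B) Y y ≤ D0 := by
          intro y hy
          have := hnn y hy
          rw [hD0, Nat.le_div_iff_mul_le hb, mul_comm]
          omega
        have hm2' : 16 * b < (Y.card - 2) ^ 2 :=
          hm2.trans_le (Nat.pow_le_pow_left (by omega) 2)
        obtain ⟨X, hX1, hX2, hX3, Y', hG', hY', hpot⟩ :=
          main_round hG hD hb hb'.le hb1 hb2 (by omega) hm2' he
        refine ⟨X, hX1, hX2, ?_⟩
        by_cases hc : m0 + 2 ≤ Y'.card
        · left
          refine ⟨Y', hG', hc, ?_, hpot.trans hp⟩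
          intro y hy
          obtain ⟨a1, a2⟩ := hY' y hy
          have a3 := hnn y a1
          have a4 : (B ∪ X).card = B.card + b := by
            rw [card_union_of_disjoint, hX3]
            rw [disjoint_left]
            intro a ha ha'
            exact (mem_free.1 (hX1 ha')).2.2 ha
          rw [a4]
          calc b * nn (free (insert e A) (B ∪ X)) Y' y ≤ b * (nn (free A B) Y y + 4) :=
                Nat.mul_le_mul_left b a2
            _ = b * nn (free A B) Y y + 4 * b := by ring
            _ ≤ 4 * (B.card + b) := by omega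
        · right
          refine ⟨hG'.hV, ?_⟩
          have a1 := hpot.trans hp
          unfold pot at a1
          have a2 : 2 / 3 * (Y'.card : ℝ) ^ 3 / b ≤ 2 / 3 * ((m0 : ℝ) + 2) ^ 3 / b := by
            have a3 : (Y'.card : ℝ) ≤ m0 + 2 := by
              have : Y'.card ≤ m0 + 2 := by omega
              exact_mod_cast this
            rw [div_le_div_iff_of_pos_right hbR]
            have := pow_le_pow_left₀ (Nat.cast_nonneg _) a3 3
            linarith
          have a4 : tch (insert e A) * b' + RR (U (insert e A)) (free (insert e A) (B ∪ X)) ≤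
              C2 := by
            rw [hC2]
            linarith
          have a5 := mul_le_mul_of_nonneg_right a4 (by linarith : 0 ≤ b / b')
          have a6 : (tch (insert e A) * b' + RR (U (insert e A)) (free (insert e A) (B ∪ X))) *
              (b / b') = tch (insert e A) * b +
                RR (U (insert e A)) (free (insert e A) (B ∪ X)) * (b / b') := by
            field_simp
          rw [a6] at a5
          have a7 : RR (U (insert e A)) (free (insert e A) (B ∪ X)) ≤
              RR (U (insert e A)) (free (insert e A) (B ∪ X)) * (b / b') :=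
            le_mul_of_one_le_right RR_nonneg hbb'
          have a8 : sg (U (insert e A)) (free (insert e A) (B ∪ X)) * b ≤ 2 * b :=
            mul_le_mul_of_nonneg_right sg_le_two hbR.le
          rw [hKb]
          linarith
      · obtain ⟨X, hX1, hX2, hX3⟩ := last_round he b h
        exact ⟨X, hX1, hX2, Or.inr ⟨(hV.insertA he).unionB hX1, hX3⟩⟩
    · have hR : RR (U (∅ : Finset (Sym2 (Fin n)))) (free ∅ ∅) = (n : ℝ) * (n - 1) := by
        rw [U_empty, free_empty, RR_init, Nat.cast_sub hn, Nat.cast_one]
      by_cases hc : m0 + 2 ≤ n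
      · left
        refine ⟨univ, ⟨valid_empty, by rw [U_empty], ?_⟩, ?_, ?_, ?_⟩
        · intro u _ hu
          exact absurd (mem_univ u) hu
        · rw [card_univ, Fintype.card_fin]
          exact hc
        · intro y _
          have : nn (free (∅ : Finset (Sym2 (Fin n))) ∅) univ y = 0 := by
            unfold nn
            rw [card_eq_zero, filter_eq_empty_iff]
            intro w hw
            rw [not_not, free_empty, mk_mem_edges]
            exact fun h => (mem_erase.1 hw).1 h.symm
          rw [this]
          simp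
        · unfold pot
          rw [tch_empty, hR, card_univ, Fintype.card_fin]
          simp
      · right
        refine ⟨valid_empty, ?_⟩
        rw [tch_empty, hR, zero_mul, zero_add, hKb]
        have a1 : sg (U (∅ : Finset (Sym2 (Fin n)))) (free ∅ ∅) * b ≤ 2 * b :=
          mul_le_mul_of_nonneg_right sg_le_two hbR.le
        have a2 : (n : ℝ) * (n - 1) ≤ C2 := by
          have a3 : (n : ℝ) ≤ m0 + 2 := by
            have : n ≤ m0 + 2 := by omega
            exact_mod_cast this
          have a4 : 2 / 3 * (n : ℝ) ^ 3 / b ≤ 2 / 3 * ((m0 : ℝ) + 2) ^ 3 / b := by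
            rw [div_le_div_iff_of_pos_right hbR]
            have := pow_le_pow_left₀ (Nat.cast_nonneg n) a3 3
            linarith
          rw [hC2]
          linarith
        have a5 : 0 ≤ (n : ℝ) * (n - 1) := mul_nonneg (by linarith) (by linarith)
        have a6 : C2 ≤ C2 * (b / b') := le_mul_of_one_le_right (by linarith) hbb'
        linarith
  have := le_f hmain
  omega

end Pool.Agent.IG71
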