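import Pool.Agent.IG71.SMain

/-!
# IG71-SNum: the numerical conclusion
-/

namespace Pool.Agent.IG71

open Finset Pool.Agent.IG19

variable {n : ℕ} {b : ℕ}

theorem cube_le {x y z : ℝ} (hx : 0 ≤ x) (hy : 0 ≤ y) (hz : 0 ≤ z) :
    (x + y + z) ^ 3 ≤ 9 * (x ^ 3 + y ^ 3 + z ^ 3) := by
  nlinarith [mul_nonneg hx (sq_nonneg (x - y)), mul_nonneg hy (sq_nonneg (x - y)),
    mul_nonneg hx (sq_nonneg (x - z)), mul_nonneg hz (sq_nonneg (x - z)),
    mul_nonneg hy (sq_nonneg (y - z)), mul_nonneg hz (sq_nonneg (y - z)),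
    mul_nonneg hx (sq_nonneg (y - z)), mul_nonneg hy (sq_nonneg (x - z)),
    mul_nonneg hz (sq_nonneg (x - y))]

theorem aux_one {q a m δ b r : ℝ} (hb0 : 0 < b) (hab : a ≤ b / 400) (ha0 : 0 ≤ a)
    (hm : 0 ≤ m) (hδ0 : 0 ≤ δ) (hδ2 : δ ≤ 12 * a + 3) (hδ3 : δ ≤ b / 2) (e1 : q ≤ a + m)
    (har : a ^ 2 / b = r) : q * (2 * δ / b) ≤ 24 * r + 1 + m := by
  have e2 : 0 ≤ 2 * δ / b := by positivity
  have e3 : 2 * δ / b ≤ 1 := by
    rw [div_le_one hb0]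
    linarith
  have e4 : 2 * δ / b ≤ (24 * a + 6) / b := by
    rw [div_le_div_iff_of_pos_right hb0]
    linarith
  have k1 := mul_le_mul_of_nonneg_right e1 e2
  have k2 := mul_le_mul_of_nonneg_left e4 ha0
  have k3 := mul_le_mul_of_nonneg_left e3 hm
  have k4 : a * ((24 * a + 6) / b) = 24 * (a ^ 2 / b) + 6 * (a / b) := by ring
  have k5 : a / b ≤ 1 / 400 := by
    rw [div_le_iff₀ hb0]
    linarith
  have k6 : (a + m) * (2 * δ / b) = a * (2 * δ / b) + m * (2 * δ / b) := by ring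
  rw [k4, har] at k2
  linarith

theorem aux_two {x a M b r : ℝ} (hb20 : 20 ≤ b) (ha0 : 0 ≤ a) (hab : a ≤ b / 400)
    (har : a ^ 2 / b = r) (hx : 0 ≤ x) (e1 : x ≤ 8 * a + 4 * Real.sqrt b + 26)
    (hM : M = 2 / 3 * x ^ 3 / b) : M / b ≤ 8 * r + 400 := by
  have hb0 : 0 < b := by linarith
  have hs0 : 0 ≤ Real.sqrt b := Real.sqrt_nonneg _
  have hs2 : Real.sqrt b ^ 2 = b := Real.sq_sqrt hb0.le
  have hr0 : 0 ≤ r := by rw [← har]; positivity
  have e3 : x ^ 3 ≤ 9 * ((8 * a) ^ 3 + (4 * Real.sqrt b) ^ 3 + 26 ^ 3) :=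
    (pow_le_pow_left₀ hx e1 3).trans (cube_le (by positivity) (by positivity) (by norm_num))
  have e4 : a ^ 3 ≤ r * b ^ 2 / 400 := by
    have k1 : a ^ 3 = r * b * a := by
      rw [← har]
      field_simp
    rw [k1]
    have k2 : 0 ≤ r * b := by positivity
    have k3 := mul_le_mul_of_nonneg_left hab k2
    calc r * b * a ≤ r * b * (b / 400) := k3
      _ = r * b ^ 2 / 400 := by ring
  have e5 : Real.sqrt b ^ 3 ≤ b ^ 2 / 4 := by
    have k1 : (4 : ℝ) ≤ Real.sqrt b := by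
      rw [show (4 : ℝ) = Real.sqrt (4 ^ 2) by rw [Real.sqrt_sq (by norm_num)]]
      exact Real.sqrt_le_sqrt (by linarith)
    have k2 : Real.sqrt b ^ 3 = b * Real.sqrt b := by
      calc Real.sqrt b ^ 3 = Real.sqrt b ^ 2 * Real.sqrt b := by ring
        _ = b * Real.sqrt b := by rw [hs2]
    have k3 : b ^ 2 = b * Real.sqrt b * Real.sqrt b := by
      calc b ^ 2 = b * Real.sqrt b ^ 2 := by rw [hs2]; ring
        _ = b * Real.sqrt b * Real.sqrt b := by ring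
    rw [k2, k3]
    have k4 : 0 ≤ b * Real.sqrt b := by positivity
    have k5 := mul_le_mul_of_nonneg_left k1 k4
    linarith
  have e6 : (26 : ℝ) ^ 3 ≤ b ^ 2 * 44 := by nlinarith
  have e7 : x ^ 3 ≤ b ^ 2 * (12 * r + 600) := by
    have k1 : (8 * a) ^ 3 = 512 * a ^ 3 := by ring
    have k2 : (4 * Real.sqrt b) ^ 3 = 64 * Real.sqrt b ^ 3 := by ring
    rw [k1, k2] at e3
    have k3 : 0 ≤ r * b ^ 2 := by positivity
    have k4 : 0 ≤ b ^ 2 := by positivity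
    linarith
  have e8 : M / b = 2 / 3 * (x ^ 3 / b ^ 2) := by
    rw [hM]
    field_simp
  have e9 : x ^ 3 / b ^ 2 ≤ 12 * r + 600 := by
    rw [div_le_iff₀ (by positivity)]
    linarith
  rw [e8]
  linarith

/-- The bound for the second player. -/
theorem s_num (hn : 1 ≤ n) (hb : 20 * n ≤ b) :
    (n : ℝ) - f n b ≤ (n : ℝ) ^ 2 / b - 2 / 3 * ((n : ℝ) ^ 3 / (b : ℝ) ^ 2) +
      1000 * (1 + (n : ℝ) ^ 4 / (b : ℝ) ^ 3) := by
  have hn' : (1 : ℝ) ≤ n := by exact_mod_cast hn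
  have hbn : (20 : ℝ) * n ≤ b := by exact_mod_cast hb
  have hb20 : (20 : ℝ) ≤ b := by linarith
  have hb0 : (0 : ℝ) < b := by linarith
  have hbN : 0 < b := by omega
  set D0 := 2 * n ^ 2 / b with hD0
  set m0 := 4 * D0 + 4 * Nat.sqrt b + 24 with hm0
  set a := (n : ℝ) ^ 2 / b with ha
  have ha0 : 0 ≤ a := by positivity
  have han : a ≤ n / 20 := by
    rw [ha, div_le_iff₀ hb0]
    nlinarith
  have hab : a ≤ b / 400 := by linarith
  have hD0a : (D0 : ℝ) ≤ 2 * a := by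
    have h1 : (D0 : ℝ) ≤ ((2 * n ^ 2 : ℕ) : ℝ) / (b : ℝ) := by
      rw [hD0]
      exact Nat.cast_div_le
    rw [ha]
    push_cast at h1
    linarith [h1, (mul_div_assoc (2 : ℝ) ((n : ℝ) ^ 2) (b : ℝ))]
  have hD00 : (0 : ℝ) ≤ D0 := Nat.cast_nonneg _
  have h2a : 2 * (n : ℝ) ^ 2 / b = 2 * a := by rw [ha]; ring
  set b' := (b : ℝ) - 5 * D0 - 3 - 2 * a with hb'
  set δ := (b : ℝ) - b' with hδ
  have hδ1 : δ = 5 * D0 + 3 + 2 * a := by rw [hδ, hb']; ring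
  have hδ2 : δ ≤ 12 * a + 3 := by linarith
  have hδ3 : δ ≤ b / 2 := by linarith
  have hδ0 : 0 ≤ δ := by linarith
  have hb'0 : 0 < b' := by linarith
  have hm2 : 16 * b < m0 ^ 2 := by
    have h1 := Nat.lt_succ_sqrt b
    have h2 : 4 * (Nat.sqrt b + 1) ≤ m0 := by omega
    have h3 : (4 * (Nat.sqrt b + 1)) ^ 2 ≤ m0 ^ 2 := Nat.pow_le_pow_left h2 2
    have h4 : (4 * (Nat.sqrt b + 1)) ^ 2 = 16 * ((Nat.sqrt b).succ * (Nat.sqrt b).succ) := by
      rw [Nat.succ_eq_add_one]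
      ring
    omega
  have hmain := s_side (n := n) (b := b) (m0 := m0) (D0 := D0) (b' := b') hn hbN hD0 (by omega) hm2
    hb'0 (by rw [h2a]; linarith) (by rw [h2a]; linarith)
  set M := 2 / 3 * ((m0 : ℝ) + 2) ^ 3 / b with hM
  set N := (n : ℝ) ^ 2 - 2 / 3 * (n : ℝ) ^ 3 / b + M with hN
  have hM0 : 0 ≤ M := by positivity
  have h3b : 2 / 3 * (n : ℝ) ^ 3 / b ≤ (n : ℝ) ^ 2 := by
    rw [div_le_iff₀ hb0]
    have : (n : ℝ) ^ 2 * n ≤ (n : ℝ) ^ 2 * b := mul_le_mul_of_nonneg_left (by linarith) (sq_nonneg _)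
    nlinarith
  have h3b0 : 0 ≤ 2 / 3 * (n : ℝ) ^ 3 / b := by positivity
  have hN0 : 0 ≤ N := by linarith
  have hNle : N ≤ (n : ℝ) ^ 2 + M := by linarith
  have h1 : ((n : ℝ) * (n - 1) - 2 / 3 * (n : ℝ) ^ 3 / b + M) / b' ≤ N / b' := by
    apply div_le_div_of_nonneg_right _ hb'0.le
    rw [hN]
    nlinarith
  have h2 : N / b' ≤ N / b * (1 + 2 * δ / b) := by
    rw [div_le_iff₀ hb'0]
    have e1 : N / b * (1 + 2 * δ / b) * b' = N * ((1 + 2 * δ / b) * b' / b) := by ring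
    rw [e1]
    apply le_mul_of_one_le_right hN0
    rw [le_div_iff₀ hb0, one_mul]
    have e2 : b' = b - δ := by rw [hδ]; ring
    rw [e2]
    have e3 : (1 + 2 * δ / b) * (b - δ) = b + δ - 2 * δ * δ / b := by
      field_simp
      ring
    rw [e3]
    have e4 : 2 * δ * δ / b ≤ δ := by
      rw [div_le_iff₀ hb0]
      nlinarith
    linarith
  have h3 : N / b = a - 2 / 3 * ((n : ℝ) ^ 3 / (b : ℝ) ^ 2) + M / b := by
    rw [hN, ha]
    field_simp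
  set r := (n : ℝ) ^ 4 / (b : ℝ) ^ 3 with hr
  have hr0 : 0 ≤ r := by positivity
  have har : a ^ 2 / b = r := by
    rw [ha, hr]
    field_simp
  have hMb0 : 0 ≤ M / b := div_nonneg hM0 hb0.le
  have h4 : N / b * (2 * δ / b) ≤ 24 * r + 1 + M / b := by
    have e1 : N / b ≤ a + M / b := by
      rw [h3]
      have : 0 ≤ (n : ℝ) ^ 3 / (b : ℝ) ^ 2 := by positivity
      linarith
    exact aux_one hb0 hab ha0 hMb0 hδ0 hδ2 hδ3 e1 har
  have h5 : M / b ≤ 8 * r + 400 := by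
    refine aux_two (x := (m0 : ℝ) + 2) hb20 ha0 hab har (by positivity) ?_ hM
    have e2 : (Nat.sqrt b : ℝ) ≤ Real.sqrt b := Real.nat_sqrt_le_real_sqrt
    rw [hm0]
    push_cast
    linarith
  have h6 : N / b * (1 + 2 * δ / b) = N / b + N / b * (2 * δ / b) := by ring
  rw [h6] at h2
  linarith

/-- The second-order formula. -/
theorem second_order : ∃ C : ℝ, 0 < C ∧ ∀ n b : ℕ, 1 ≤ n → 1 ≤ b →
    |((n : ℝ) - f n b) - ((n : ℝ) ^ 2 / b - 2 / 3 * ((n : ℝ) ^ 3 / (b : ℝ) ^ 2))| ≤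
      C * (1 + (n : ℝ) ^ 4 / (b : ℝ) ^ 3) := by
  refine ⟨10000, by norm_num, fun n b hn hb => ?_⟩
  have hn' : (1 : ℝ) ≤ n := by exact_mod_cast hn
  have hb' : (1 : ℝ) ≤ b := by exact_mod_cast hb
  have hb0 : (0 : ℝ) < b := by linarith
  have hr0 : 0 ≤ (n : ℝ) ^ 4 / (b : ℝ) ^ 3 := by positivity
  rcases le_or_gt (20 * n) b with h | h
  · have h1 := s_num hn h
    have h2 := f_num (n := n) (b := b) hn (by omega)
    rw [abs_le]
    constructor <;> linarith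
  · have h' : (b : ℝ) ≤ 20 * n := by exact_mod_cast h.le
    have hf : (f n b : ℝ) ≤ n := by exact_mod_cast f_le
    have hf0 : (0 : ℝ) ≤ f n b := Nat.cast_nonneg _
    have e1 : (n : ℝ) ≤ 8000 * ((n : ℝ) ^ 4 / (b : ℝ) ^ 3) := by
      rw [← mul_div_assoc, le_div_iff₀ (by positivity)]
      have : (b : ℝ) ^ 3 ≤ (20 * n) ^ 3 := pow_le_pow_left₀ hb0.le h' 3
      nlinarith
    have e2 : (n : ℝ) ^ 2 / b ≤ 400 * ((n : ℝ) ^ 4 / (b : ℝ) ^ 3) := by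
      rw [← mul_div_assoc, div_le_div_iff₀ hb0 (by positivity)]
      have : (b : ℝ) ^ 2 ≤ (20 * n) ^ 2 := pow_le_pow_left₀ hb0.le h' 2
      have k : 0 ≤ (n : ℝ) ^ 2 * b := by positivity
      nlinarith [mul_le_mul_of_nonneg_left this k]
    have e3 : (n : ℝ) ^ 3 / (b : ℝ) ^ 2 ≤ 20 * ((n : ℝ) ^ 4 / (b : ℝ) ^ 3) := by
      rw [← mul_div_assoc, div_le_div_iff₀ (by positivity) (by positivity)]
      have k : 0 ≤ (n : ℝ) ^ 3 * (b : ℝ) ^ 2 := by positivity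
      nlinarith [mul_le_mul_of_nonneg_left h' k]
    have e4 : 0 ≤ (n : ℝ) ^ 2 / b := by positivity
    have e5 : 0 ≤ (n : ℝ) ^ 3 / (b : ℝ) ^ 2 := by positivity
    rw [abs_le]
    constructor <;> linarith

end Pool.Agent.IG71
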