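import Pool.Agent.IG71.FSide
import Pool.Agent.IG71.Batch

/-!
# IG71-SPrinc: the principle for the second player and the last phase
-/

namespace Pool.Agent.IG71

open Finset Pool.Agent.IG19

variable {n : ℕ} {b k : ℕ} {A B X F F' : Finset (Sym2 (Fin n))} {W W' : Finset (Fin n)}

/-- The principle for the second player. -/
theorem guar_of_inv (Inv : Finset (Sym2 (Fin n)) → Finset (Sym2 (Fin n)) → Prop)
    (h0 : ∀ A B, Inv A B → free A B = ∅ → k ≤ (U A).card)
    (h1 : ∀ A B, Inv A B → ∀ e ∈ free A B, ∃ X, X ⊆ free (insert e A) B ∧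
      X.card = min b (free (insert e A) B).card ∧ Inv (insert e A) (B ∪ X))
    {A B : Finset (Sym2 (Fin n))} (h : Inv A B) : Guar n b k true A B := by
  have key : ∀ N : ℕ, ∀ A B : Finset (Sym2 (Fin n)), (free A B).card ≤ N → Inv A B →
      Guar n b k true A B := by
    intro N
    induction N with
    | zero =>
      intro A B hN hInv
      have hf : free A B = ∅ := by
        rw [← card_eq_zero]
        omega
      exact Guar.over hf (h0 A B hInv hf)
    | succ N ih =>
      intro A B hN hInv
      by_cases hf : free A B = ∅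
      · exact Guar.over hf (h0 A B hInv hf)
      · refine Guar.moveF hf fun e he => ?_
        obtain ⟨X, hX, hXc, hI⟩ := h1 A B hInv e he
        have hc := card_free_insert he
        by_cases hf' : free (insert e A) B = ∅
        · have hX0 : X = ∅ := by
            rw [hf'] at hX
            exact subset_empty.1 hX
          rw [hX0, union_empty] at hI
          exact Guar.over hf' (h0 _ _ hI hf')
        · refine Guar.moveS X hf' hX hXc (ih _ _ ?_ hI)
          have h3 := card_free_union hX
          omega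
  exact key _ A B le_rfl h

/-- A set of given size compatible with a chain. -/
theorem exists_chain {α : Type*} [DecidableEq α] {P Q F : Finset α} (hPQ : P ⊆ Q) (hQF : Q ⊆ F)
    {c : ℕ} (hc : c ≤ F.card) : ∃ X ⊆ F, X.card = c ∧ (P.card ≤ c → P ⊆ X) ∧ (c ≤ P.card → X ⊆ P) ∧
      (Q.card ≤ c → Q ⊆ X) ∧ (c ≤ Q.card → X ⊆ Q) := by
  have hPc := card_le_card hPQ
  rcases le_or_gt c P.card with h1 | h1
  · obtain ⟨X, hX, hXc⟩ := exists_subset_card_eq h1
    refine ⟨X, hX.trans (hPQ.trans hQF), hXc, ?_, fun _ => hX, ?_, fun _ => hX.trans hPQ⟩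
    · intro h2
      rw [eq_of_subset_of_card_le hX (by omega)]
    · intro h2
      have h3 : X = P := eq_of_subset_of_card_le hX (by omega)
      have h4 : P = Q := eq_of_subset_of_card_le hPQ (by omega)
      rw [h3, h4]
  · rcases le_or_gt c Q.card with h2 | h2
    · obtain ⟨X, hX1, hX2, hXc⟩ := exists_subsuperset_card_eq hPQ h1.le h2
      refine ⟨X, hX2.trans hQF, hXc, fun _ => hX1, fun h3 => ?_, fun h3 => ?_, fun _ => hX2⟩
      · omega
      · rw [eq_of_subset_of_card_le hX2 (by omega)]
    · obtain ⟨X, hX1, hX2, hXc⟩ := exists_subsuperset_card_eq hQF h2.le hc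
      exact ⟨X, hX2, hXc, fun _ => hPQ.trans hX1, fun h3 => by omega, fun _ => hX1,
        fun h3 => by omega⟩

theorem RR_eq_sum : RR W X = ∑ e ∈ X, ((W.filter (fun x => x ∈ e)).card : ℝ) := by
  unfold RR ld
  have : ∑ x ∈ W, (X.filter (fun e => x ∈ e)).card = ∑ e ∈ X, (W.filter (fun x => x ∈ e)).card := by
    simp only [card_filter]
    exact sum_comm
  exact_mod_cast this

theorem card_le_RR (h : ∀ e ∈ X, ∃ v ∈ W, v ∈ e) : (X.card : ℝ) ≤ RR W X := by
  rw [RR_eq_sum]
  calc (X.card : ℝ) = ∑ e ∈ X, (1 : ℝ) := by simp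
    _ ≤ _ := sum_le_sum fun e he => by
        obtain ⟨v, hv, hve⟩ := h e he
        have : 0 < (W.filter (fun x => x ∈ e)).card := card_pos.2 ⟨v, mem_filter.2 ⟨hv, hve⟩⟩
        exact_mod_cast this

theorem two_card_le_RR (hX : X ⊆ edges n) (h : ∀ e ∈ X, ∀ v, v ∈ e → v ∈ W) :
    2 * (X.card : ℝ) ≤ RR W X := by
  rw [RR_eq_sum]
  calc 2 * (X.card : ℝ) = ∑ e ∈ X, (2 : ℝ) := by simp [mul_comm]
    _ ≤ _ := sum_le_sum fun e he => by
        induction e using Sym2.ind with
        | _ u v =>
          have huv : u ≠ v := mk_mem_edges.1 (hX he)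
          have h1 : ({u, v} : Finset (Fin n)) ⊆ W.filter (fun x => x ∈ s(u, v)) := by
            intro x hx
            rw [mem_insert, mem_singleton] at hx
            rcases hx with rfl | rfl
            · exact mem_filter.2 ⟨h _ he _ (Sym2.mem_mk_left _ _), Sym2.mem_mk_left _ _⟩
            · exact mem_filter.2 ⟨h _ he _ (Sym2.mem_mk_right _ _), Sym2.mem_mk_right _ _⟩
          have h2 := card_le_card h1
          rw [card_pair huv] at h2
          exact_mod_cast h2

open Classical in
/-- `2` if some element of `F` is inside `W`, `1` if not but some element of `F` meets `W`, and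
`0` otherwise. -/
noncomputable def sg (W : Finset (Fin n)) (F : Finset (Sym2 (Fin n))) : ℝ :=
  if ∃ u ∈ W, ∃ v ∈ W, s(u, v) ∈ F then 2 else if ∃ u ∈ W, ∃ e ∈ F, u ∈ e then 1 else 0

theorem sg_le_two : sg W F ≤ 2 := by
  unfold sg
  split_ifs <;> norm_num

theorem sg_nonneg : 0 ≤ sg W F := by
  unfold sg
  split_ifs <;> norm_num

theorem sg_le_one (h : ¬ ∃ u ∈ W, ∃ v ∈ W, s(u, v) ∈ F) : sg W F ≤ 1 := by
  unfold sg
  rw [if_neg h]
  split_ifs <;> norm_num

theorem sg_eq_zero (h : ¬ ∃ u ∈ W, ∃ e ∈ F, u ∈ e) : sg W F = 0 := by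
  unfold sg
  rw [if_neg, if_neg h]
  rintro ⟨u, hu, v, hv, huv⟩
  exact h ⟨u, hu, _, huv, Sym2.mem_mk_left _ _⟩

/-- The move of the second player in the last phase. -/
theorem last_move (hF : F ⊆ edges n) (b : ℕ) : ∃ X ⊆ F, X.card = min b F.card ∧
    RR W (F \ X) + sg W (F \ X) * b ≤ RR W F := by
  classical
  set I := ins W F with hI
  set T := F.filter (fun e => ∃ v ∈ W, v ∈ e) with hT
  have hIT : I ⊆ T := by
    intro e he
    rw [hI, ins, mem_filter] at he
    rw [hT, mem_filter]
    refine ⟨he.1, ?_⟩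
    induction e using Sym2.ind with
    | _ u v => exact ⟨u, he.2 u (Sym2.mem_mk_left _ _), Sym2.mem_mk_left _ _⟩
  have hTF : T ⊆ F := filter_subset _ _
  have hTc := card_le_card hTF
  have hIc := card_le_card hIT
  obtain ⟨X, hXF, hXc, h1, h2, h3, h4⟩ := exists_chain hIT hTF (min_le_right b F.card)
  refine ⟨X, hXF, hXc, ?_⟩
  have hb0 : (0 : ℝ) ≤ b := Nat.cast_nonneg b
  have hR := RR_sdiff (W := W) hXF
  have hR0 : 0 ≤ RR W F := RR_nonneg
  rcases le_or_gt b I.card with c1 | c1
  · -- all claimed edges inside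
    have hm : min b F.card = b := min_eq_left (by omega)
    rw [hm] at hXc h2
    have hXI := h2 c1
    have a1 := two_card_le_RR (W := W) (hXF.trans hF) (fun e he => (mem_filter.1 (hXI he)).2)
    rw [hXc] at a1
    have a2 := sg_le_two (W := W) (F := F \ X)
    nlinarith
  · rcases le_or_gt b T.card with c2 | c2
    · have hm : min b F.card = b := min_eq_left (by omega)
      rw [hm] at hXc h1 h4
      have hXT := h4 c2
      have hIX := h1 c1.le
      have a1 := card_le_RR (W := W) (fun e he => (mem_filter.1 (hXT he)).2)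
      rw [hXc] at a1
      have a2 : sg W (F \ X) ≤ 1 := by
        apply sg_le_one
        rintro ⟨u, hu, v, hv, huv⟩
        rw [mem_sdiff] at huv
        exact huv.2 (hIX (mk_mem_ins.2 ⟨huv.1, hu, hv⟩))
      nlinarith
    · have hm : T.card ≤ min b F.card := le_min c2.le hTc
      have hTX := h3 hm
      have hno : ¬ ∃ u ∈ W, ∃ e ∈ F \ X, u ∈ e := by
        rintro ⟨u, hu, e, he, hue⟩
        rw [mem_sdiff] at he
        exact he.2 (hTX (mem_filter.2 ⟨he.1, u, hu, hue⟩))
      have a1 : RR W (F \ X) = 0 := by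
        rw [RR_eq_sum]
        refine sum_eq_zero fun e he => ?_
        rw [Nat.cast_eq_zero, card_eq_zero, filter_eq_empty_iff]
        intro x hx hxe
        exact hno ⟨x, hx, e, he, hxe⟩
      rw [a1, sg_eq_zero hno]
      linarith

/-- What one claim of the first player does to the number of touched vertices. -/
theorem tch_insert_le {e : Sym2 (Fin n)} (he : e ∈ free A B) :
    tch (insert e A) ≤ tch A + sg (U A) (free A B) := by
  classical
  unfold sg
  split_ifs with h1 h2
  · unfold tch
    have : ((U A).card : ℝ) ≤ (U (insert e A)).card + 2 := by exact_mod_cast card_U_insert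
    linarith
  · have h3 : U A ⊆ U (insert e A) ∪ (U A).filter (fun v => v ∈ e) := by
      intro v hv
      rw [mem_union, mem_U_insert, mem_filter]
      by_cases h : v ∈ e
      · exact Or.inr ⟨hv, h⟩
      · exact Or.inl ⟨h, hv⟩
    have h4 : ((U A).filter (fun v => v ∈ e)).card ≤ 1 := by
      rw [card_le_one]
      intro x hx y hy
      rw [mem_filter] at hx hy
      by_contra hxy
      have : e = s(x, y) := (Sym2.mem_and_mem_iff hxy).1 ⟨hx.2, hy.2⟩
      exact h1 ⟨x, hx.1, y, hy.1, this ▸ he⟩
    have h5 := (card_le_card h3).trans (card_union_le _ _)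
    unfold tch
    have : ((U A).card : ℝ) ≤ (U (insert e A)).card + 1 := by
      have : (U A).card ≤ (U (insert e A)).card + 1 := by omega
      exact_mod_cast this
    linarith
  · have h3 : U A ⊆ U (insert e A) := by
      intro v hv
      rw [mem_U_insert]
      exact ⟨fun hve => h2 ⟨v, hv, e, he, hve⟩, hv⟩
    unfold tch
    have : ((U A).card : ℝ) ≤ (U (insert e A)).card := by exact_mod_cast card_le_card h3
    linarith

/-- One round of the last phase. -/
theorem last_round {e : Sym2 (Fin n)} (he : e ∈ free A B) (b : ℕ) {K : ℝ}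
    (h : tch A * b + RR (U A) (free A B) + sg (U A) (free A B) * b ≤ K) :
    ∃ X, X ⊆ free (insert e A) B ∧ X.card = min b (free (insert e A) B).card ∧
      tch (insert e A) * b + RR (U (insert e A)) (free (insert e A) (B ∪ X)) +
        sg (U (insert e A)) (free (insert e A) (B ∪ X)) * b ≤ K := by
  have hF : free (insert e A) B ⊆ edges n := fun x hx => (mem_free.1 hx).1
  obtain ⟨X, hX, hXc, h1⟩ := last_move (W := U (insert e A)) hF b
  refine ⟨X, hX, hXc, ?_⟩
  rw [free_union]
  have h2 : RR (U (insert e A)) (free (insert e A) B) ≤ RR (U A) (free A B) := by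
    refine RR_mono U_insert_subset ?_
    rw [free_insert he]
    exact erase_subset _ _
  have h3 := tch_insert_le he
  have hb0 : (0 : ℝ) ≤ b := Nat.cast_nonneg b
  nlinarith

end Pool.Agent.IG71
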