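import Pool.Agent.IG71.SPrinc

/-!
# IG71-SRound: one round of the main phase of the second player
-/

namespace Pool.Agent.IG71

open Finset Pool.Agent.IG19

variable {n : ℕ} {b k : ℕ} {A B X F F' : Finset (Sym2 (Fin n))} {W W' Y : Finset (Fin n)}

theorem vdrop {m p b D : ℝ} (hp : 0 ≤ p) (hD : 0 ≤ D) (h1 : 2 * p ≤ m) (h2 : 4 * D + 20 ≤ m)
    (h3 : 2 * p * m + p ≤ 2 * b + 2 * p * (1 + D) + p ^ 2) :
    2 / 3 * (m ^ 3 - (m - p) ^ 3) ≤ b * (2 * m + 8 * (1 + D)) := by
  have hm : 0 ≤ m := by linarith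
  have hpm : p * m ≤ 2 * b := by
    have a1 : p * (1 + D) ≤ p * (m / 4 - 4) := mul_le_mul_of_nonneg_left (by linarith) hp
    have a2 : p ^ 2 ≤ p * (m / 2) := by
      rw [sq]
      exact mul_le_mul_of_nonneg_left (by linarith) hp
    nlinarith
  have hb : 0 ≤ b := by
    have : 0 ≤ p * m := mul_nonneg hp hm
    linarith
  have e1 : 2 / 3 * (m ^ 3 - (m - p) ^ 3) = 2 * p * m ^ 2 - 2 * m * p ^ 2 + 2 / 3 * p ^ 3 := by ring
  rw [e1]
  have e2 : m * (2 * p * m + p) ≤ m * (2 * b + 2 * p * (1 + D) + p ^ 2) :=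
    mul_le_mul_of_nonneg_left h3 hm
  have e3 : 2 / 3 * p ^ 3 ≤ m * p ^ 2 := by
    have : p * p ^ 2 ≤ m * p ^ 2 := mul_le_mul_of_nonneg_right (by linarith) (sq_nonneg p)
    have : 0 ≤ p ^ 3 := by positivity
    nlinarith
  have e4 : 2 * (p * m) * (1 + D) ≤ 4 * b * (1 + D) := by
    have : 2 * (p * m) ≤ 4 * b := by linarith
    exact mul_le_mul_of_nonneg_right this (by linarith)
  have e5 : 0 ≤ b * (1 + D) := mul_nonneg hb (by linarith)
  have e6 : 0 ≤ m * p := mul_nonneg hm hp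
  nlinarith

theorem ld_ge (hF : F ⊆ edges n) {D0 : ℕ} {y : Fin n} (hy : y ∈ Y) (h : nn F Y y ≤ D0) :
    (Y.card : ℝ) - 1 - D0 ≤ ld F y := by
  have h1 := nb_add_nn hF hy
  have h2 := nbr_card_le (B := F) Y y
  have h3 : Y.card ≤ ld F y + D0 + 1 := by omega
  have h4 : (Y.card : ℝ) ≤ ld F y + D0 + 1 := by exact_mod_cast h3
  linarith

/-- The state of the main phase. -/
structure Good (A B : Finset (Sym2 (Fin n))) (Y : Finset (Fin n)) : Prop where
  hV : Valid A B
  hY : Y ⊆ U A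
  hcl : ∀ u ∈ U A, u ∉ Y → ∀ v ∈ U A, s(u, v) ∉ free A B

/-- The potential of the main phase. -/
noncomputable def pot (b : ℕ) (b' : ℝ) (A B : Finset (Sym2 (Fin n))) (Y : Finset (Fin n)) : ℝ :=
  tch A * b' + RR (U A) (free A B) - 2 / 3 * (Y.card : ℝ) ^ 3 / b

theorem card_le_add_filter (e : Sym2 (Fin n)) (hY : Y ⊆ U A) :
    Y.card ≤ (Y.filter (fun v => v ∉ e)).card + ((U A).filter (fun v => v ∈ e)).card := by
  have h1 := card_filter_add_card_filter_not (s := Y) (fun v => v ∉ e)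
  have h2 : (Y.filter (fun v => ¬ v ∉ e)).card ≤ ((U A).filter (fun v => v ∈ e)).card := by
    refine card_le_card fun v hv => ?_
    rw [mem_filter] at hv ⊢
    exact ⟨hY hv.1, not_not.1 hv.2⟩
  omega

/-- The move of `F`. -/
theorem step_F {D0 : ℕ} (hG : Good A B Y) (hD : ∀ y ∈ Y, nn (free A B) Y y ≤ D0)
    {b' : ℝ} (hb : 0 < b) (hb' : 0 ≤ b') (hb1 : b' + 5 * D0 + 3 + 2 * (n : ℝ) ^ 2 / b ≤ b)
    (hb2 : b' + 2 * (n : ℝ) ^ 2 / b + 2 * n + 8 + 8 * D0 ≤ 2 * b)
    (hm : 2 ≤ Y.card)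
    {e : Sym2 (Fin n)} (he : e ∈ free A B) :
    Y.card ≤ (Y.filter (fun v => v ∉ e)).card + 2 ∧
    pot b b' (insert e A) B (Y.filter (fun v => v ∉ e)) +
      2 * ((Y.filter (fun v => v ∉ e)).card : ℝ) + 8 * (1 + D0) ≤ pot b b' A B Y + 2 * b := by
  classical
  have hbR : (0 : ℝ) < b := by exact_mod_cast hb
  have hfE : free A B ⊆ edges n := fun x hx => (mem_free.1 hx).1
  have hYn : Y.card ≤ n := card_finset_fin_le Y
  have hYn' : (Y.card : ℝ) ≤ n := by exact_mod_cast hYn
  have hm' : (2 : ℝ) ≤ Y.card := by exact_mod_cast hm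
  set Y' := Y.filter (fun v => v ∉ e) with hY'
  have hYY : Y'.card ≤ Y.card := card_le_card (filter_subset _ _)
  have hYY' : (Y'.card : ℝ) ≤ Y.card := by exact_mod_cast hYY
  have hcf := card_le_add_filter e hG.hY
  rw [← hY'] at hcf
  by_cases hboth : ∃ u ∈ U A, ∃ v ∈ U A, e = s(u, v)
  · obtain ⟨u, hu, v, hv, rfl⟩ := hboth
    have huv : u ≠ v := mk_mem_edges.1 (hfE he)
    have huY : u ∈ Y := by
      by_contra h
      exact hG.hcl u hu h v hv he
    have hvY : v ∈ Y := by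
      by_contra h
      exact hG.hcl v hv h u hu (by rw [Sym2.eq_swap]; exact he)
    have hc2 : Y'.card + 2 = Y.card := by
      have h1 : Y' = Y \ {u, v} := by
        ext x
        rw [hY', mem_filter, mem_sdiff, Sym2.mem_iff, mem_insert, mem_singleton]
      have h2 : ({u, v} : Finset (Fin n)) ⊆ Y := by
        intro x hx
        rw [mem_insert, mem_singleton] at hx
        rcases hx with rfl | rfl
        · exact huY
        · exact hvY
      rw [h1, ← card_pair huv, card_sdiff_add_card_eq_card h2]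
    refine ⟨by omega, ?_⟩
    have hc2' : (Y'.card : ℝ) = Y.card - 2 := by
      have : (Y'.card : ℝ) + 2 = Y.card := by exact_mod_cast hc2
      linarith
    have htc : tch (insert s(u, v) A) ≤ tch A + 2 := by
      unfold tch
      have : ((U A).card : ℝ) ≤ (U (insert s(u, v) A)).card + 2 := by exact_mod_cast card_U_insert
      linarith
    have hRR : RR (U A) (free A B) = RR (U (insert s(u, v) A)) (free (insert s(u, v) A) B) +
        (ld (free A B) u + ld (free A B) v) := by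
      have hsub : ({u, v} : Finset (Fin n)) ⊆ U A := by
        intro x hx
        rw [mem_insert, mem_singleton] at hx
        rcases hx with rfl | rfl
        · exact hu
        · exact hv
      rw [free_insert he, RR_erase]
      · unfold RR
        rw [U_insert_eq, ← sum_sdiff hsub, sum_pair huv]
      · intro x hx
        exact (mem_U_insert.1 hx).1
    have h1 := ld_ge hfE huY (hD u huY)
    have h2 := ld_ge hfE hvY (hD v hvY)
    have h3 : 2 / 3 * (Y.card : ℝ) ^ 3 / b - 2 / 3 * (Y'.card : ℝ) ^ 3 / b ≤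
        2 * (2 * (n : ℝ) ^ 2 / b) := by
      rw [hc2', ← sub_div, ← mul_div_assoc, div_le_div_iff_of_pos_right hbR]
      have : (Y.card : ℝ) ^ 2 ≤ (n : ℝ) ^ 2 := pow_le_pow_left₀ (by linarith) hYn' 2
      nlinarith
    have h4 : tch (insert s(u, v) A) * b' ≤ tch A * b' + 2 * b' := by
      have := mul_le_mul_of_nonneg_right htc hb'
      linarith
    unfold pot
    linarith
  · have hk : ((U A).filter (fun v => v ∈ e)).card ≤ 1 := by
      rw [card_le_one]
      intro x hx y hy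
      rw [mem_filter] at hx hy
      by_contra hxy
      have : e = s(x, y) := (Sym2.mem_and_mem_iff hxy).1 ⟨hx.2, hy.2⟩
      exact hboth ⟨x, hx.1, y, hy.1, this⟩
    refine ⟨by omega, ?_⟩
    have hU := card_le_add_filter (A := A) e (subset_refl (U A))
    have hU2 : (U A).filter (fun v => v ∉ e) = U (insert e A) := by
      ext x
      rw [mem_filter, mem_U_insert]
      tauto
    rw [hU2] at hU
    have htc : tch (insert e A) ≤ tch A + 1 := by
      unfold tch
      have : ((U A).card : ℝ) ≤ (U (insert e A)).card + 1 := by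
        have : (U A).card ≤ (U (insert e A)).card + 1 := by omega
        exact_mod_cast this
      linarith
    have hRR : RR (U (insert e A)) (free (insert e A) B) ≤ RR (U A) (free A B) := by
      refine RR_mono U_insert_subset ?_
      rw [free_insert he]
      exact erase_subset _ _
    have hc1 : (Y.card : ℝ) - 1 ≤ Y'.card := by
      have : Y.card ≤ Y'.card + 1 := by omega
      have : (Y.card : ℝ) ≤ Y'.card + 1 := by exact_mod_cast this
      linarith
    have h3 : 2 / 3 * (Y.card : ℝ) ^ 3 / b - 2 / 3 * (Y'.card : ℝ) ^ 3 / b ≤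
        2 * (n : ℝ) ^ 2 / b := by
      rw [← sub_div, div_le_div_iff_of_pos_right hbR]
      have a1 : ((Y.card : ℝ) - 1) ^ 3 ≤ (Y'.card : ℝ) ^ 3 := pow_le_pow_left₀ (by linarith) hc1 3
      have a2 : (Y.card : ℝ) ^ 2 ≤ (n : ℝ) ^ 2 := pow_le_pow_left₀ (by linarith) hYn' 2
      nlinarith
    have h4 : tch (insert e A) * b' ≤ tch A * b' + b' := by
      have := mul_le_mul_of_nonneg_right htc hb'
      linarith
    unfold pot
    linarith

/-- One round of the main phase. -/
theorem main_round {D0 : ℕ} (hG : Good A B Y) (hD : ∀ y ∈ Y, nn (free A B) Y y ≤ D0)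
    {b' : ℝ} (hb : 0 < b) (hb' : 0 ≤ b') (hb1 : b' + 5 * D0 + 3 + 2 * (n : ℝ) ^ 2 / b ≤ b)
    (hb2 : b' + 2 * (n : ℝ) ^ 2 / b + 2 * n + 8 + 8 * D0 ≤ 2 * b)
    (hm1 : 4 * D0 + 22 ≤ Y.card) (hm2 : 16 * b < (Y.card - 2) ^ 2)
    {e : Sym2 (Fin n)} (he : e ∈ free A B) :
    ∃ X, X ⊆ free (insert e A) B ∧ X.card = min b (free (insert e A) B).card ∧ X.card = b ∧
      ∃ Y', Good (insert e A) (B ∪ X) Y' ∧
        (∀ y ∈ Y', y ∈ Y ∧ nn (free (insert e A) (B ∪ X)) Y' y ≤ nn (free A B) Y y + 4) ∧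
        pot b b' (insert e A) (B ∪ X) Y' ≤ pot b b' A B Y := by
  classical
  have hbR : (0 : ℝ) < b := by exact_mod_cast hb
  obtain ⟨hc, hpot⟩ := step_F hG hD hb hb' hb1 hb2 (by omega) he
  set Y1 := Y.filter (fun v => v ∉ e) with hY1
  set E := free (insert e A) B with hE
  have hfE : E ⊆ edges n := fun x hx => (mem_free.1 hx).1
  have hnn1 : ∀ z ∈ Y1, nn E Y1 z ≤ nn (free A B) Y z := by
    intro z hz
    rw [hY1, mem_filter] at hz
    unfold nn
    refine card_le_card fun w hw => ?_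
    rw [mem_filter, mem_erase] at hw ⊢
    refine ⟨⟨hw.1.1, (mem_filter.1 hw.1.2).1⟩, fun h => hw.2 ?_⟩
    rw [hE, free_insert he, mem_erase]
    refine ⟨fun h2 => hz.2 ?_, h⟩
    rw [← h2]
    exact Sym2.mem_mk_left _ _
  have hD1 : ∀ z ∈ Y1, nn E Y1 z ≤ D0 := fun z hz =>
    (hnn1 z hz).trans (hD z (mem_filter.1 hz).1)
  have hm2' : 16 * b < Y1.card ^ 2 := by
    refine hm2.trans_le (Nat.pow_le_pow_left ?_ 2)
    omega
  obtain ⟨P, hPY, X, hXI, hXc, hXP, hX4, hP2, hPc⟩ := batch hfE hD1 (by omega) hm2'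
  have hXE : X ⊆ E := hXI.trans (filter_subset _ _)
  have hXle : b ≤ E.card := by
    rw [← hXc]
    exact card_le_card hXE
  have hY1U : Y1 ⊆ U (insert e A) := by
    intro v hv
    rw [hY1, mem_filter] at hv
    exact mem_U_insert.2 ⟨hv.2, hG.hY hv.1⟩
  refine ⟨X, hXE, by rw [min_eq_left hXle, hXc], hXc, Y1 \ P, ⟨?_, ?_, ?_⟩, ?_, ?_⟩
  · exact (hG.hV.insertA he).unionB hXE
  · exact sdiff_subset.trans hY1U
  · intro u hu huY v hv huv
    rw [free_union, mem_sdiff] at huv
    have huv0 : s(u, v) ∈ free A B := by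
      have := huv.1
      rw [free_insert he] at this
      exact mem_of_mem_erase this
    have huU := U_insert_subset hu
    have hvU := U_insert_subset hv
    have huY0 : u ∈ Y := by
      by_contra h
      exact hG.hcl u huU h v hvU huv0
    have hvY0 : v ∈ Y := by
      by_contra h
      exact hG.hcl v hvU h u huU (by rw [Sym2.eq_swap]; exact huv0)
    have huY1 : u ∈ Y1 := by
      rw [hY1, mem_filter]
      exact ⟨huY0, (mem_U_insert.1 hu).1⟩
    have hvY1 : v ∈ Y1 := by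
      rw [hY1, mem_filter]
      exact ⟨hvY0, (mem_U_insert.1 hv).1⟩
    have huP : u ∈ P := by
      by_contra h
      exact huY (mem_sdiff.2 ⟨huY1, h⟩)
    exact huv.2 (hXP _ (mk_mem_ins.2 ⟨huv.1, huY1, hvY1⟩) ⟨u, huP, Sym2.mem_mk_left _ _⟩)
  · intro y hy
    have hy1 := (mem_sdiff.1 hy).1
    refine ⟨(mem_filter.1 hy1).1, ?_⟩
    have h1 : nn (free (insert e A) (B ∪ X)) (Y1 \ P) y ≤ nn E Y1 y +
        ((Y1 \ P).filter (fun w => s(y, w) ∈ X)).card := by
      unfold nn
      refine (card_le_card ?_).trans (card_union_le _ _)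
      intro w hw
      obtain ⟨hw1, hw2⟩ := mem_filter.1 hw
      obtain ⟨hw3, hw4⟩ := mem_erase.1 hw1
      by_cases h : s(y, w) ∈ X
      · exact mem_union_right _ (mem_filter.2 ⟨hw4, h⟩)
      · refine mem_union_left _ (mem_filter.2 ⟨mem_erase.2 ⟨hw3, (mem_sdiff.1 hw4).1⟩,
          fun h2 => hw2 ?_⟩)
        rw [free_union, mem_sdiff]
        exact ⟨h2, h⟩
    have h2 := hnn1 y hy1
    have h3 := hX4 y hy
    omega
  · -- potential
    have hRR := RR_sdiff (W := U (insert e A)) hXE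
    have h2b : 2 * (b : ℝ) ≤ RR (U (insert e A)) X := by
      have := two_card_le_RR (W := U (insert e A)) (hXE.trans hfE)
        (fun a ha v hv => hY1U ((mem_filter.1 (hXI ha)).2 v hv))
      rw [hXc] at this
      exact this
    have hcard : ((Y1 \ P).card : ℝ) = Y1.card - P.card := by
      rw [card_sdiff_of_subset hPY, Nat.cast_sub (card_le_card hPY)]
    have hv : 2 / 3 * ((Y1.card : ℝ) ^ 3 - ((Y1.card : ℝ) - P.card) ^ 3) ≤
        b * (2 * Y1.card + 8 * (1 + D0)) := by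
      refine vdrop (Nat.cast_nonneg _) (Nat.cast_nonneg _) ?_ ?_ ?_
      · exact_mod_cast hP2
      · have : 4 * D0 + 20 ≤ Y1.card := by omega
        exact_mod_cast this
      · exact_mod_cast hPc
    have hv2 : 2 / 3 * (Y1.card : ℝ) ^ 3 / b - 2 / 3 * ((Y1 \ P).card : ℝ) ^ 3 / b ≤
        2 * Y1.card + 8 * (1 + D0) := by
      rw [hcard, ← sub_div, div_le_iff₀ hbR]
      linarith
    unfold pot at hpot ⊢
    rw [free_union]
    linarith

end Pool.Agent.IG71
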